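import Pool.Agent.P.MP_563d58_an.Orth

set_option autoImplicit false
set_option linter.unusedSectionVars false
open MeasureTheory Filter Topology Complex Metric AddCircle
open scoped Real ComplexConjugate

namespace Pool.Agent.P.MP_563d58_an

noncomputable section

/-- measurable and essentially bounded -/
def Good (h : ℝ → ℂ) : Prop := AEStronglyMeasurable h volume ∧ ∃ C : ℝ, 0 ≤ C ∧ ∀ᵐ t, ‖h t‖ ≤ C

lemma Good.of_cont {h : ℝ → ℂ} (hc : Continuous h) {C : ℝ} (hb : ∀ t, ‖h t‖ ≤ C) : Good h :=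
  ⟨hc.aestronglyMeasurable, C, (norm_nonneg _).trans (hb 0), ae_of_all _ hb⟩

lemma Good.add {h k : ℝ → ℂ} (hh : Good h) (hk : Good k) : Good (h + k) := by
  obtain ⟨m1, C1, p1, b1⟩ := hh
  obtain ⟨m2, C2, p2, b2⟩ := hk
  refine ⟨m1.add m2, C1 + C2, by positivity, ?_⟩
  filter_upwards [b1, b2] with t h1 h2
  exact (norm_add_le _ _).trans (add_le_add h1 h2)

lemma Good.sub {h k : ℝ → ℂ} (hh : Good h) (hk : Good k) : Good (h - k) := by
  obtain ⟨m1, C1, p1, b1⟩ := hh
  obtain ⟨m2, C2, p2, b2⟩ := hk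
  refine ⟨m1.sub m2, C1 + C2, by positivity, ?_⟩
  filter_upwards [b1, b2] with t h1 h2
  exact (norm_sub_le _ _).trans (add_le_add h1 h2)

lemma Good.mul {h k : ℝ → ℂ} (hh : Good h) (hk : Good k) : Good (h * k) := by
  obtain ⟨m1, C1, p1, b1⟩ := hh
  obtain ⟨m2, C2, p2, b2⟩ := hk
  refine ⟨m1.mul m2, C1 * C2, by positivity, ?_⟩
  filter_upwards [b1, b2] with t h1 h2
  rw [Pi.mul_apply, norm_mul]
  exact mul_le_mul h1 h2 (norm_nonneg _) p1

lemma Good.smul {h : ℝ → ℂ} (c : ℂ) (hh : Good h) : Good (c • h) :=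
  (Good.of_cont (h := fun _ => c) continuous_const (C := ‖c‖) (fun _ => le_rfl)).mul hh

lemma Good.star {h : ℝ → ℂ} (hh : Good h) : Good (fun t => star (h t)) := by
  obtain ⟨m1, C1, p1, b1⟩ := hh
  refine ⟨m1.star, C1, p1, ?_⟩
  filter_upwards [b1] with t h1
  simpa using h1

lemma good_iff {h : ℝ → ℂ} :
    Good h ↔ AEStronglyMeasurable h volume ∧ eLpNorm h ⊤ volume < ⊤ := by
  constructor
  · rintro ⟨m1, C, -, b⟩
    exact ⟨m1, (memLp_top_of_bound m1 C b).2⟩
  · rintro ⟨m1, hb⟩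
    refine ⟨m1, (eLpNorm h ⊤ volume).toReal, ENNReal.toReal_nonneg, ?_⟩
    filter_upwards [ae_le_eLpNormEssSup (f := h) (μ := volume)] with t ht
    rw [eLpNorm_exponent_top] at hb ⊢
    have := ENNReal.toReal_mono hb.ne ht
    simpa using this

lemma Good.memLp {h : ℝ → ℂ} (hh : Good h) :
    MemLp h 2 (volume.restrict (Set.Ioc 0 (2 * π))) := by
  obtain ⟨m1, C1, p1, b1⟩ := hh
  exact MemLp.of_bound m1.restrict C1 (ae_restrict_of_ae b1)

lemma Good.ii {h : ℝ → ℂ} (hh : Good h) : IntervalIntegrable h volume 0 (2 * π) := by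
  rw [intervalIntegrable_iff_integrableOn_Ioc_of_le Real.two_pi_pos.le]
  exact hh.memLp.integrable (by norm_num)

lemma Good.ii_mul {h : ℝ → ℂ} (hh : Good h) {W : ℝ → ℂ} (hW : Continuous W) :
    IntervalIntegrable (fun t => h t * W t) volume 0 (2 * π) :=
  hh.ii.mul_continuousOn hW.continuousOn

lemma Good.ii_norm {h : ℝ → ℂ} (hh : Good h) {W : ℝ → ℝ} (hW : Continuous W) :
    IntervalIntegrable (fun t => ‖h t‖ * W t) volume 0 (2 * π) :=
  hh.ii.norm.mul_continuousOn hW.continuousOn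

/-- the weighted L1 seminorm -/
def N (a : ℝ) (h : ℝ → ℂ) : ℝ := ∫ t in (0:ℝ)..(2 * π), ‖h t‖ * Pk a t

section mob
variable {a : ℝ} (h0 : 0 ≤ a) (h1 : a < 1)
include h0 h1

lemma N_nonneg (h : ℝ → ℂ) : 0 ≤ N a h :=
  intervalIntegral.integral_nonneg Real.two_pi_pos.le fun t _ =>
    mul_nonneg (norm_nonneg _) (Pk_pos (norm_a h0 h1) t).le

lemma N_le {h k₁ k₂ : ℝ → ℂ} (hh : Good h) (hk₁ : Good k₁) (hk₂ : Good k₂) {C₁ C₂ C₃ : ℝ}
    (H : ∀ᵐ t, ‖h t‖ ≤ C₁ * ‖k₁ t‖ + C₂ * ‖k₂ t‖ + C₃) :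
    N a h ≤ C₁ * N a k₁ + C₂ * N a k₂ + 2 * π * C₃ := by
  have hP := continuous_Pk (norm_a h0 h1)
  have i1 := (hk₁.ii_norm hP).const_mul C₁
  have i2 := (hk₂.ii_norm hP).const_mul C₂
  have i3 : IntervalIntegrable (fun t => C₃ * Pk a t) volume 0 (2 * π) :=
    (hP.intervalIntegrable _ _).const_mul C₃
  have e : C₁ * N a k₁ + C₂ * N a k₂ + 2 * π * C₃
      = ∫ t in (0:ℝ)..(2 * π), (C₁ * (‖k₁ t‖ * Pk a t) + C₂ * (‖k₂ t‖ * Pk a t)) + C₃ * Pk a t := by
    rw [intervalIntegral.integral_add (i1.add i2) i3, intervalIntegral.integral_add i1 i2]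
    simp only [intervalIntegral.integral_const_mul, integral_Pk (norm_a h0 h1), N]
    ring
  rw [e]
  apply intervalIntegral.integral_mono_ae Real.two_pi_pos.le (hh.ii_norm hP) ((i1.add i2).add i3)
  filter_upwards [H] with t ht
  have := Pk_pos (norm_a h0 h1) t
  nlinarith

end mob

/-- slice of a function on the torus, read at the scale a -/
def sl (Φ : C(T × T, ℂ)) (a : ℝ) (y : T) : ℝ → ℂ := fun t => Φ ((th a t : T), y)

lemma continuous_coeT : Continuous fun t : ℝ => (t : T) := continuous_quotient_mk'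

lemma continuous_sl {a : ℝ} (h0 : 0 ≤ a) (h1 : a < 1) (Φ : C(T × T, ℂ)) (y : T) :
    Continuous (sl Φ a y) :=
  Φ.continuous.comp ((continuous_coeT.comp (continuous_th h0 h1)).prodMk continuous_const)

lemma good_sl {a : ℝ} (h0 : 0 ≤ a) (h1 : a < 1) (Φ : C(T × T, ℂ)) (y : T) : Good (sl Φ a y) :=
  Good.of_cont (continuous_sl h0 h1 Φ y) fun _ => Φ.norm_coe_le_norm _

/-- f looks like Φ along the scales b -/
def Appr (b : ℕ → ℝ) (f : ℝ → ℂ) (Φ : C(T × T, ℂ)) : Prop :=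
  Tendsto (fun m => N (b m) (f - sl Φ (b m) (mu m))) atTop (𝓝 0)

section appr
variable {b : ℕ → ℝ} (h0 : ∀ m, 0 ≤ b m) (h1 : ∀ m, b m < 1)
include h0 h1

lemma appr_of_le {f g h : ℝ → ℂ} {Φ Ψ Θ : C(T × T, ℂ)} (hf : Good f) (hg : Good g) (hh : Good h)
    (Hf : Appr b f Φ) (Hg : Appr b g Ψ) (C₁ C₂ : ℝ)
    (H : ∀ᵐ t, ∀ p : T × T, ‖h t - Θ p‖ ≤ C₁ * ‖f t - Φ p‖ + C₂ * ‖g t - Ψ p‖) :
    Appr b h Θ := by
  have lim := (Hf.const_mul C₁).add (Hg.const_mul C₂)
  simp only [mul_zero, add_zero] at lim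
  refine squeeze_zero (fun m => N_nonneg (h0 m) (h1 m) _) (fun m => ?_) lim
  have := N_le (h0 m) (h1 m) (hh.sub (good_sl (h0 m) (h1 m) Θ (mu m)))
    (hf.sub (good_sl (h0 m) (h1 m) Φ (mu m))) (hg.sub (good_sl (h0 m) (h1 m) Ψ (mu m)))
    (C₁ := C₁) (C₂ := C₂) (C₃ := 0) (by
      filter_upwards [H] with t ht
      simpa [sl] using ht _)
  simpa using this

lemma Appr.add {f g : ℝ → ℂ} {Φ Ψ : C(T × T, ℂ)} (hf : Good f) (hg : Good g)
    (Hf : Appr b f Φ) (Hg : Appr b g Ψ) : Appr b (f + g) (Φ + Ψ) := by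
  refine appr_of_le h0 h1 hf hg (hf.add hg) Hf Hg 1 1 (ae_of_all _ fun t p => ?_)
  have : (f + g) t - (Φ + Ψ) p = (f t - Φ p) + (g t - Ψ p) := by simp; ring
  rw [this, one_mul, one_mul]
  exact norm_add_le _ _

lemma Appr.sub {f g : ℝ → ℂ} {Φ Ψ : C(T × T, ℂ)} (hf : Good f) (hg : Good g)
    (Hf : Appr b f Φ) (Hg : Appr b g Ψ) : Appr b (f - g) (Φ - Ψ) := by
  refine appr_of_le h0 h1 hf hg (hf.sub hg) Hf Hg 1 1 (ae_of_all _ fun t p => ?_)
  have : (f - g) t - (Φ - Ψ) p = (f t - Φ p) - (g t - Ψ p) := by simp; ring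
  rw [this, one_mul, one_mul]
  exact norm_sub_le _ _

lemma Appr.mul {f g : ℝ → ℂ} {Φ Ψ : C(T × T, ℂ)} (hf : Good f) (hg : Good g)
    (Hf : Appr b f Φ) (Hg : Appr b g Ψ) : Appr b (f * g) (Φ * Ψ) := by
  obtain ⟨C, hC, hb⟩ := hf.2
  refine appr_of_le h0 h1 hf hg (hf.mul hg) Hf Hg ‖Ψ‖ C ?_
  filter_upwards [hb] with t ht p
  have : (f * g) t - (Φ * Ψ) p = Ψ p * (f t - Φ p) + f t * (g t - Ψ p) := by simp; ring
  rw [this]
  refine (norm_add_le _ _).trans ?_
  rw [norm_mul, norm_mul]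
  gcongr
  exact Ψ.norm_coe_le_norm p

lemma Appr.smul (c : ℂ) {f : ℝ → ℂ} {Φ : C(T × T, ℂ)} (hf : Good f)
    (Hf : Appr b f Φ) : Appr b (c • f) (c • Φ) := by
  refine appr_of_le h0 h1 hf hf (hf.smul c) Hf Hf ‖c‖ 0 (ae_of_all _ fun t p => ?_)
  have : (c • f) t - (c • Φ) p = c * (f t - Φ p) := by simp; ring
  rw [this, norm_mul]
  simp

lemma Appr.star {f : ℝ → ℂ} {Φ : C(T × T, ℂ)} (hf : Good f)
    (Hf : Appr b f Φ) : Appr b (fun t => star (f t)) (star Φ) := by
  refine appr_of_le h0 h1 hf hf hf.star Hf Hf 1 0 (ae_of_all _ fun t p => ?_)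
  have : Star.star (f t) - (Star.star Φ) p = Star.star (f t - Φ p) := by simp
  rw [this, norm_star]
  simp

lemma Appr.bound {f : ℝ → ℂ} {Φ : C(T × T, ℂ)} (hf : Good f) (Hf : Appr b f Φ) {M : ℝ}
    (hM : 0 ≤ M) (hb : ∀ᵐ t, ‖f t‖ ≤ M) : ‖Φ‖ ≤ M := by
  have hp : Continuous fun p : T × T => max (‖Φ p‖ - M) 0 := by fun_prop
  have hG := cont_param hp
  have key : ∀ y, ∫ x, max (‖Φ (x, y)‖ - M) 0 ∂haarAddCircle = 0 := by
    refine eq_zero_of_tendsto_mu hG ?_
    have lim := Hf.const_mul (2 * π)⁻¹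
    rw [mul_zero] at lim
    refine squeeze_zero (fun m => integral_nonneg fun x => le_max_right _ _) (fun m => ?_) lim
    rw [le_inv_mul_iff₀ Real.two_pi_pos, ← smul_eq_mul,
      ← intT (fun x => max (‖Φ (x, mu m)‖ - M) 0),
      ← change_var (h0 m) (h1 m) (G := fun s : ℝ => max (‖Φ ((s : T), mu m)‖ - M) 0)
        (hp.comp (continuous_coeT.prodMk continuous_const))]
    have hP := continuous_Pk (norm_a (h0 m) (h1 m))
    apply intervalIntegral.integral_mono_ae Real.two_pi_pos.le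
    · apply Continuous.intervalIntegrable
      exact hP.smul (hp.comp ((continuous_coeT.comp (continuous_th (h0 m) (h1 m))).prodMk
        continuous_const))
    · exact (hf.sub (good_sl (h0 m) (h1 m) Φ (mu m))).ii_norm hP
    · filter_upwards [hb] with t ht
      rw [smul_eq_mul, mul_comm]
      apply mul_le_mul_of_nonneg_right _ (Pk_pos (norm_a (h0 m) (h1 m)) t).le
      apply max_le _ (norm_nonneg _)
      have := norm_sub_norm_le (Φ ((th (b m) t : T), mu m)) (f t)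
      rw [norm_sub_rev] at this
      simp only [Pi.sub_apply, sl]
      linarith
  rw [ContinuousMap.norm_le _ hM]
  rintro ⟨x, y⟩
  have hc : Continuous fun x : T => max (‖Φ (x, y)‖ - M) 0 := by fun_prop
  have hi : Integrable (fun x : T => max (‖Φ (x, y)‖ - M) 0) haarAddCircle :=
    hc.integrable_of_hasCompactSupport (HasCompactSupport.of_compactSpace _)
  have h2 := (integral_eq_zero_iff_of_nonneg (fun x => le_max_right _ _) hi).1 (key y)
  have h3 := (Continuous.ae_eq_iff_eq haarAddCircle hc continuous_zero).1 h2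
  have h4 := congrFun h3 x
  have h5 := le_max_left (‖Φ (x, y)‖ - M) 0
  simp only [Pi.zero_apply] at h4
  linarith

lemma Appr.unique {f g : ℝ → ℂ} {Φ Ψ : C(T × T, ℂ)} (hf : Good f) (hg : Good g)
    (Hf : Appr b f Φ) (Hg : Appr b g Ψ) (H : f =ᵐ[volume] g) : Φ = Ψ := by
  have := Appr.bound h0 h1 (hf.sub hg) (Appr.sub h0 h1 hf hg Hf Hg) le_rfl (by
    filter_upwards [H] with t ht
    simp [ht])
  exact sub_eq_zero.1 (norm_le_zero_iff.1 this)

lemma Appr.an {f : ℝ → ℂ} {Φ : C(T × T, ℂ)} (hf : Good f) (Hf : Appr b f Φ)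
    (hA : ∀ n : ℕ, 0 < n → ∫ t in (0:ℝ)..(2 * π), f t * E t ^ n = 0) (y : T) :
    An fun x => Φ (x, y) := by
  intro n hn
  have hp : Continuous fun p : T × T => Φ p * fourier (n : ℤ) p.1 := by fun_prop
  have hG := cont_param hp
  refine eq_zero_of_tendsto_mu hG ?_ y
  have lim := Hf.const_mul (2 * π)⁻¹
  rw [mul_zero] at lim
  refine squeeze_zero_norm (fun m => ?_) lim
  have ha := norm_a (h0 m) (h1 m)
  have hP := continuous_Pk ha
  have hW : Continuous fun t => u (b m) (E t) ^ n * (Pk (b m) t : ℂ) := by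
    simp_rw [← E_th (h0 m) (h1 m)]
    exact ((continuous_E.comp (continuous_th (h0 m) (h1 m))).pow n).mul
      (continuous_ofReal.comp hP)
  have e0 : ∫ t in (0:ℝ)..(2 * π), f t * (u (b m) (E t) ^ n * (Pk (b m) t : ℂ)) = 0 := by
    apply orthR hf.memLp _ hA
    · intro k
      have := poisson (h := fun w => u (b m) w ^ n * w ^ k)
        (((u_diff (h0 m) (h1 m)).pow n).mul (by fun_prop)) ha
      rw [u_self, zero_pow hn.ne', zero_mul, mul_zero] at this
      rw [← this]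
      apply intervalIntegral.integral_congr
      intro t _
      simp only
      ring
    · obtain ⟨C, hC⟩ := (isCompact_Icc.image hW (s := Set.Icc 0 (2 * π))).isBounded.exists_norm_le
      refine MemLp.of_bound hW.aestronglyMeasurable C ?_
      filter_upwards [ae_restrict_mem measurableSet_Ioc] with t ht
      exact hC _ ⟨t, Set.Ioc_subset_Icc_self ht, rfl⟩
  have e1 : (2 * π) • ∫ x, Φ (x, mu m) * fourier (n : ℤ) x ∂haarAddCircle
      = ∫ t in (0:ℝ)..(2 * π), sl Φ (b m) (mu m) t * (u (b m) (E t) ^ n * (Pk (b m) t : ℂ)) := by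
    rw [← intT (fun x => Φ (x, mu m) * fourier (n : ℤ) x),
      ← change_var (h0 m) (h1 m) (G := fun s : ℝ => Φ ((s : T), mu m) * fourier (n : ℤ) (s : T))
        (hp.comp (continuous_coeT.prodMk continuous_const))]
    apply intervalIntegral.integral_congr
    intro t _
    simp only [fourier_coe_nat, E_th (h0 m) (h1 m), sl, Complex.real_smul]
    ring
  have e2 : ∫ t in (0:ℝ)..(2 * π), (f - sl Φ (b m) (mu m)) t * (u (b m) (E t) ^ n * (Pk (b m) t : ℂ))
      = - ((2 * π) • ∫ x, Φ (x, mu m) * fourier (n : ℤ) x ∂haarAddCircle) := by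
    simp_rw [Pi.sub_apply, sub_mul]
    rw [intervalIntegral.integral_sub (hf.ii_mul hW) ((good_sl (h0 m) (h1 m) Φ (mu m)).ii_mul hW),
      e0, e1, zero_sub]
  have e3 := intervalIntegral.norm_integral_le_integral_norm (μ := volume) Real.two_pi_pos.le
    (f := fun t => (f - sl Φ (b m) (mu m)) t * (u (b m) (E t) ^ n * (Pk (b m) t : ℂ)))
  rw [e2, norm_neg, norm_smul, Real.norm_eq_abs, abs_of_pos Real.two_pi_pos] at e3
  rw [le_inv_mul_iff₀ Real.two_pi_pos]
  refine e3.trans (le_of_eq ?_)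
  apply intervalIntegral.integral_congr
  intro t _
  simp only [norm_mul, norm_pow, norm_u_E (h0 m) (h1 m), one_pow, one_mul, Complex.norm_real,
    Real.norm_eq_abs, abs_of_pos (Pk_pos ha t)]

lemma Appr.limit {F : ℕ → ℝ → ℂ} {f : ℝ → ℂ} {Φs : ℕ → C(T × T, ℂ)} {Φ : C(T × T, ℂ)}
    (hF : ∀ n, Good (F n)) (hf : Good f) (H : ∀ n, Appr b (F n) (Φs n))
    (l1 : ∀ ε > 0, ∀ᶠ n in atTop, ∀ᵐ t, ‖F n t - f t‖ ≤ ε) (l2 : Tendsto Φs atTop (𝓝 Φ)) :
    Appr b f Φ := by
  rw [Appr, Metric.tendsto_atTop]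
  intro ε hε
  have hε' : 0 < ε / (8 * π) := by positivity
  obtain ⟨n, hn1, hn2⟩ := ((l1 _ hε').and (Metric.tendsto_nhds.1 l2 _ hε')).exists
  obtain ⟨M, hM⟩ := Metric.tendsto_atTop.1 (H n) (ε / 2) (by positivity)
  refine ⟨M, fun m hm => ?_⟩
  have h3 := hM m hm
  rw [Real.dist_eq, sub_zero, abs_of_nonneg (N_nonneg (h0 m) (h1 m) _)] at h3 ⊢
  have g1 := (hF n).sub (good_sl (h0 m) (h1 m) (Φs n) (mu m))
  have := N_le (h0 m) (h1 m) (hf.sub (good_sl (h0 m) (h1 m) Φ (mu m))) g1 g1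
    (C₁ := 1) (C₂ := 0) (C₃ := ε / (8 * π) + ε / (8 * π)) (by
      filter_upwards [hn1] with t ht
      have h4 : ‖Φs n ((th (b m) t : T), mu m) - Φ ((th (b m) t : T), mu m)‖ ≤ ε / (8 * π) := by
        rw [dist_eq_norm] at hn2
        exact ((Φs n - Φ).norm_coe_le_norm _).trans hn2.le
      have h5 : (f - sl Φ (b m) (mu m)) t = (F n - sl (Φs n) (b m) (mu m)) t - (F n t - f t)
          + (Φs n ((th (b m) t : T), mu m) - Φ ((th (b m) t : T), mu m)) := by
        simp [sl]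
      rw [h5]
      have h6 := norm_add_le ((F n - sl (Φs n) (b m) (mu m)) t - (F n t - f t))
        (Φs n ((th (b m) t : T), mu m) - Φ ((th (b m) t : T), mu m))
      have h7 := norm_sub_le ((F n - sl (Φs n) (b m) (mu m)) t) (F n t - f t)
      linarith)
  have e : 2 * π * (ε / (8 * π) + ε / (8 * π)) = ε / 2 := by
    field_simp; ring
  linarith

lemma appr_const (hb : Tendsto b atTop (𝓝 1)) {f : ℝ → ℂ} (hc : Continuous f)
    (hp : Function.Periodic f (2 * π)) : Appr b f (ContinuousMap.const _ (f 0)) := by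
  obtain ⟨M, hM⟩ := (isCompact_Icc.image hc (s := Set.Icc 0 (2 * π))).isBounded.exists_norm_le
  have hM' : ∀ t ∈ Set.Icc 0 (2 * π), ‖f t‖ ≤ M := fun t ht => hM _ ⟨t, ht, rfl⟩
  have hM0 : 0 ≤ M := (norm_nonneg _).trans (hM' 0 ⟨le_rfl, Real.two_pi_pos.le⟩)
  rw [Appr, Metric.tendsto_atTop]
  intro ε hε
  have hε' : 0 < ε / (4 * π) := by positivity
  have hK : IsCompact (Set.Icc 0 (2 * π) ∩ {t | ε / (4 * π) ≤ ‖f t - f 0‖}) :=
    isCompact_Icc.inter_right (isClosed_le continuous_const (by fun_prop))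
  obtain ⟨c, hc0, hc1⟩ := hK.exists_forall_le' (f := fun t => 1 - Real.cos t) (a := 0)
    (by fun_prop) (by
      rintro t ⟨ht, ht2⟩
      have h2 := Real.cos_le_one t
      rcases h2.lt_or_eq with h3 | h3
      · linarith
      · exfalso
        obtain ⟨n, hn⟩ := (Real.cos_eq_one_iff t).1 h3
        have h4 : f t = f 0 := by
          rw [← hn]
          simpa using hp.int_mul n 0
        simp only [Set.mem_ofPred_eq, h4, sub_self, norm_zero] at ht2
        linarith)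
  have lim : Tendsto (fun m => 2 * M / c * (2 * π * (1 - b m))) atTop (𝓝 0) := by
    have := ((hb.const_sub 1).const_mul (2 * π)).const_mul (2 * M / c)
    simpa using this
  obtain ⟨K, hK⟩ := Metric.tendsto_atTop.1 lim (ε / 2) (by positivity)
  refine ⟨K, fun m hm => ?_⟩
  have h3 := hK m hm
  rw [Real.dist_eq, sub_zero] at h3
  have h3' := (le_abs_self _).trans_lt h3
  rw [Real.dist_eq, sub_zero, abs_of_nonneg (N_nonneg (h0 m) (h1 m) _)]
  have ha := norm_a (h0 m) (h1 m)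
  have hP := continuous_Pk ha
  have e1 := poisson_re (h := fun w => 1 - w) (by fun_prop) ha
  have e2 : ∫ t in (0:ℝ)..(2 * π), (ε / (4 * π) * Pk (b m) t
      + 2 * M / c * ((1 - E t).re * Pk (b m) t)) = ε / 2 + 2 * M / c * (2 * π * (1 - b m)) := by
    rw [intervalIntegral.integral_add, intervalIntegral.integral_const_mul,
      intervalIntegral.integral_const_mul, integral_Pk ha, e1]
    · simp only [sub_re, one_re, ofReal_re, add_left_inj]
      field_simp; ring
    · exact (continuous_const.mul hP).intervalIntegrable _ _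
    · apply Continuous.intervalIntegrable
      exact continuous_const.mul
        ((continuous_re.comp (continuous_const.sub continuous_E)).mul hP)
  have e3 : N (b m) (f - sl (ContinuousMap.const _ (f 0)) (b m) (mu m))
      ≤ ∫ t in (0:ℝ)..(2 * π), (ε / (4 * π) * Pk (b m) t
      + 2 * M / c * ((1 - E t).re * Pk (b m) t)) := by
    apply intervalIntegral.integral_mono_on Real.two_pi_pos.le
    · apply Continuous.intervalIntegrable
      exact (hc.sub (continuous_sl (h0 m) (h1 m) _ _)).norm.mul hP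
    · apply Continuous.intervalIntegrable
      exact (continuous_const.mul hP).add (continuous_const.mul
        ((continuous_re.comp (continuous_const.sub continuous_E)).mul hP))
    · intro t ht
      have hre : (1 - E t).re = 1 - Real.cos t := by
        simp [E_eq, Complex.cos_ofReal_re]
      rw [hre, ← mul_assoc, ← add_mul]
      apply mul_le_mul_of_nonneg_right _ (Pk_pos ha t).le
      simp only [Pi.sub_apply, sl, ContinuousMap.const_apply]
      have hcos : 0 ≤ 1 - Real.cos t := by linarith [Real.cos_le_one t]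
      by_cases h : ε / (4 * π) ≤ ‖f t - f 0‖
      · have h5 := hc1 t ⟨ht, h⟩
        have h6 : ‖f t - f 0‖ ≤ 2 * M := by
          have := norm_sub_le (f t) (f 0)
          linarith [hM' t ht, hM' 0 ⟨le_rfl, Real.two_pi_pos.le⟩]
        have h7 : 2 * M ≤ 2 * M / c * (1 - Real.cos t) := by
          rw [div_mul_eq_mul_div, le_div_iff₀ hc0]
          exact mul_le_mul_of_nonneg_left h5 (by positivity)
        linarith
      · have : 0 ≤ 2 * M / c * (1 - Real.cos t) := by positivity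
        linarith
  linarith

end appr

end

end Pool.Agent.P.MP_563d58_an
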