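import Mathlib

set_option autoImplicit false
set_option linter.unusedSectionVars false
open MeasureTheory Filter Topology Complex Metric
open scoped Real

namespace Pool.Agent.P.MP_563d58_an

noncomputable section

/-- the point of the unit circle with argument t -/
def E (t : ℝ) : ℂ := cexp ((t : ℂ) * I)

/-- Poisson kernel -/
def Pk (z : ℂ) (t : ℝ) : ℝ := (1 - ‖z‖ ^ 2) / ‖E t - z‖ ^ 2

/-- disc automorphism sending a to 0 -/
def u (a : ℝ) (w : ℂ) : ℂ := (w - a) / (1 - a * w)

/-- argument of u a on the circle -/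
def th (a t : ℝ) : ℝ := t + 2 * Real.arctan (a * Real.sin t / (1 - a * Real.cos t))

lemma norm_E (t : ℝ) : ‖E t‖ = 1 := by simp [E, Complex.norm_exp_ofReal_mul_I]

lemma continuous_E : Continuous E := by unfold E; fun_prop

lemma E_eq (t : ℝ) : E t = Real.cos t + Real.sin t * I := by
  simp [E, Complex.exp_mul_I]

lemma E_periodic : Function.Periodic E (2 * π) := by
  intro t
  simp only [E]
  push_cast
  rw [add_mul, Complex.exp_add, Complex.exp_two_pi_mul_I, mul_one]

lemma E_sub_ne {z : ℂ} (hz : ‖z‖ < 1) (t : ℝ) : E t - z ≠ 0 := by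
  intro h
  have : E t = z := sub_eq_zero.1 h
  have h2 := norm_E t
  rw [this] at h2
  linarith

lemma Pk_pos {z : ℂ} (hz : ‖z‖ < 1) (t : ℝ) : 0 < Pk z t := by
  unfold Pk
  have h1 : 0 < ‖E t - z‖ := norm_pos_iff.2 (E_sub_ne hz t)
  have h2 : 0 < 1 - ‖z‖ ^ 2 := by nlinarith [norm_nonneg z]
  positivity

lemma continuous_Pk {z : ℂ} (hz : ‖z‖ < 1) : Continuous (Pk z) := by
  unfold Pk
  refine Continuous.div continuous_const ((continuous_E.sub continuous_const).norm.pow 2) ?_
  intro t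
  exact pow_ne_zero _ (norm_ne_zero_iff.2 (E_sub_ne hz t))

lemma poisson {h : ℂ → ℂ} (hh : DifferentiableOn ℂ h (closedBall 0 1)) {z : ℂ} (hz : ‖z‖ < 1) :
    ∫ t in (0:ℝ)..(2 * π), h (E t) * (Pk z t : ℂ) = 2 * π * h z := by
  have h1 : DiffContOnCl ℂ h (ball 0 1) := by
    apply DifferentiableOn.diffContOnCl
    rwa [closure_ball 0 one_ne_zero]
  have h2 := h1.circleAverage_poissonKernel_smul' (w := z) (by simpa using hz)
  rw [Real.circleAverage_def] at h2
  rw [← h2]
  rw [Complex.real_smul]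
  push_cast
  rw [← mul_assoc, mul_inv_cancel₀ (by simp), one_mul]
  apply intervalIntegral.integral_congr
  intro t _
  have : circleMap 0 1 t = E t := by simp [circleMap, E]
  simp only [this, sub_zero, norm_E, Pk, Complex.real_smul]
  rw [mul_comm]
  simp

lemma poisson_re {h : ℂ → ℂ} (hh : DifferentiableOn ℂ h (closedBall 0 1)) {z : ℂ} (hz : ‖z‖ < 1) :
    ∫ t in (0:ℝ)..(2 * π), (h (E t)).re * Pk z t = 2 * π * (h z).re := by
  have h1 := poisson hh hz
  have hc : Continuous fun t => h (E t) := by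
    apply hh.continuousOn.comp_continuous continuous_E
    intro t; simp [norm_E]
  have hi : IntervalIntegrable (fun t => h (E t) * (Pk z t : ℂ)) volume 0 (2 * π) :=
    (hc.mul (continuous_ofReal.comp (continuous_Pk hz))).intervalIntegrable _ _
  have h2 := Complex.reCLM.intervalIntegral_comp_comm hi
  rw [h1] at h2
  simpa using h2

lemma integral_Pk {z : ℂ} (hz : ‖z‖ < 1) : ∫ t in (0:ℝ)..(2 * π), Pk z t = 2 * π := by
  have := poisson_re (h := fun _ => 1) (differentiableOn_const _) hz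
  simpa using this

lemma mean_value {h : ℂ → ℂ} (hh : DifferentiableOn ℂ h (closedBall 0 1)) :
    ∫ t in (0:ℝ)..(2 * π), h (E t) = 2 * π * h 0 := by
  have := poisson hh (z := 0) (by simp)
  simpa [Pk, norm_E] using this

section mob
variable {a : ℝ} (h0 : 0 ≤ a) (h1 : a < 1)
include h0 h1

lemma norm_a : ‖(a : ℂ)‖ < 1 := by simpa [abs_of_nonneg h0] using h1

lemma den_lb {w : ℂ} (hw : ‖w‖ ≤ 1) : 1 - a ≤ ‖1 - a * w‖ := by
  have h2 : ‖(a : ℂ) * w‖ ≤ a := by
    rw [norm_mul, Complex.norm_real, Real.norm_eq_abs, abs_of_nonneg h0]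
    nlinarith [norm_nonneg w]
  have h3 := norm_sub_norm_le (1 : ℂ) (a * w)
  simp only [norm_one] at h3
  linarith

lemma den_ne {w : ℂ} (hw : ‖w‖ ≤ 1) : (1 : ℂ) - a * w ≠ 0 := by
  have := den_lb h0 h1 hw
  intro h
  rw [h] at this
  simp at this
  linarith

lemma u_diff : DifferentiableOn ℂ (u a) (closedBall 0 1) := by
  unfold u
  apply DifferentiableOn.div (by fun_prop) (by fun_prop)
  intro w hw
  exact den_ne h0 h1 (by simpa using hw)

lemma cos_den_pos (t : ℝ) : 0 < 1 - a * Real.cos t := by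
  nlinarith [Real.cos_le_one t, Real.neg_one_le_cos t]

lemma Pk_real (t : ℝ) : Pk a t = (1 - a ^ 2) / (1 - 2 * a * Real.cos t + a ^ 2) := by
  unfold Pk
  congr 1
  · simp
  · rw [E_eq, Complex.sq_norm, Complex.normSq_apply]
    simp [Complex.cos_ofReal_re, Complex.sin_ofReal_re]
    nlinarith [Real.sin_sq_add_cos_sq t]

lemma hasDerivAt_th (t : ℝ) : HasDerivAt (th a) (Pk a t) t := by
  have hd := cos_den_pos h0 h1 t
  have e1 : HasDerivAt (fun t => a * Real.sin t) (a * Real.cos t) t :=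
    (Real.hasDerivAt_sin t).const_mul a
  have e2 : HasDerivAt (fun t => 1 - a * Real.cos t) (a * Real.sin t) t := by
    simpa using ((Real.hasDerivAt_cos t).const_mul a).const_sub 1
  have e3 := (e1.div e2 hd.ne').arctan
  have e4 := (hasDerivAt_id t).add (e3.const_mul 2)
  refine HasDerivAt.congr_deriv (f := th a) e4 ?_
  symm
  rw [Pk_real h0 h1]
  have hq : 0 < 1 - 2 * a * Real.cos t + a ^ 2 := by
    nlinarith [Real.cos_le_one t, Real.neg_one_le_cos t]
  have hs := Real.sin_sq_add_cos_sq t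
  have key : (1 - a * Real.cos t) ^ 2 + (a * Real.sin t) ^ 2 = 1 - 2 * a * Real.cos t + a ^ 2 := by
    nlinarith
  have key2 : a * Real.cos t * (1 - a * Real.cos t) - a * Real.sin t * (a * Real.sin t)
      = a * Real.cos t - a ^ 2 := by nlinarith
  simp only [Pi.div_apply]
  rw [key2]
  have key3 : 1 + (a * Real.sin t / (1 - a * Real.cos t)) ^ 2
      = (1 - 2 * a * Real.cos t + a ^ 2) / (1 - a * Real.cos t) ^ 2 := by
    rw [← key]; field_simp
  rw [key3]
  generalize hQ : 1 - 2 * a * Real.cos t + a ^ 2 = Q at hq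
  field_simp
  rw [← hQ]
  ring

lemma continuous_th : Continuous (th a) :=
  continuous_iff_continuousAt.2 fun t => (hasDerivAt_th h0 h1 t).continuousAt

lemma E_th (t : ℝ) : E (th a t) = u a (E t) := by
  have hd := cos_den_pos h0 h1 t
  set x := a * Real.sin t / (1 - a * Real.cos t) with hx
  have hE2 : E (2 * Real.arctan x) * (1 - x * I) = 1 + x * I := by
    rw [E_eq, Real.cos_two_mul, Real.sin_two_mul, Real.cos_arctan, Real.sin_arctan]
    have hp : 0 < 1 + x ^ 2 := by positivity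
    have hsq : √(1 + x ^ 2) ^ 2 = 1 + x ^ 2 := Real.sq_sqrt hp.le
    have hs0 : √(1 + x ^ 2) ≠ 0 := (Real.sqrt_pos.2 hp).ne'
    have e1 : 2 * (1 / √(1 + x ^ 2)) ^ 2 - 1 = (1 - x ^ 2) / (1 + x ^ 2) := by
      rw [div_pow, hsq]; field_simp; ring
    have e2 : 2 * (x / √(1 + x ^ 2)) * (1 / √(1 + x ^ 2)) = 2 * x / (1 + x ^ 2) := by
      rw [mul_assoc, div_mul_div_comm, ← sq, hsq]; ring
    rw [e1, e2]
    have hpc : (1 + (x : ℂ) ^ 2) ≠ 0 := by exact_mod_cast hp.ne'
    push_cast
    field_simp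
    linear_combination (-2 * (x:ℂ) ^ 2) * Complex.I_sq
  have hth : E (th a t) = E t * E (2 * Real.arctan x) := by
    simp only [E, th, ← hx]
    push_cast
    rw [add_mul, Complex.exp_add]
  have hden := den_ne h0 h1 (norm_E t).le
  have hdc : (1 - (a : ℂ) * (Real.cos t : ℂ)) ≠ 0 := by exact_mod_cast hd.ne'
  have hxc : (x : ℂ) = a * (Real.sin t : ℂ) / (1 - a * (Real.cos t : ℂ)) := by
    rw [hx]; push_cast; rfl
  have hm : (1 - (x : ℂ) * I) * (1 - (a : ℂ) * (Real.cos t : ℂ)) = 1 - a * E t := by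
    rw [hxc, E_eq]; field_simp; ring
  have hp : (1 + (x : ℂ) * I) * (1 - (a : ℂ) * (Real.cos t : ℂ)) * E t = E t - a := by
    rw [hxc, E_eq]
    have hs : (Real.sin t : ℂ) ^ 2 + (Real.cos t : ℂ) ^ 2 = 1 := by
      exact_mod_cast Real.sin_sq_add_cos_sq t
    field_simp
    linear_combination (a * (Real.sin t : ℂ) ^ 2) * Complex.I_sq - a * hs
  rw [hth, u, eq_div_iff hden, ← hm, ← hp, ← hE2]
  ring

lemma norm_u_E (t : ℝ) : ‖u a (E t)‖ = 1 := by rw [← E_th h0 h1, norm_E]

lemma change_var {F : Type*} [NormedAddCommGroup F] [NormedSpace ℝ F] {G : ℝ → F}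
    (hG : Continuous G) :
    ∫ t in (0:ℝ)..(2 * π), Pk a t • G (th a t) = ∫ s in (0:ℝ)..(2 * π), G s := by
  have := intervalIntegral.integral_deriv_smul_comp (a := 0) (b := 2 * π) (f := th a)
    (f' := Pk a) (g := G) (fun t _ => hasDerivAt_th h0 h1 t)
    (continuous_Pk (norm_a h0 h1)).continuousOn hG
  simpa [th] using this

end mob

lemma u_self (a : ℝ) : u a a = 0 := by simp [u]

end

end Pool.Agent.P.MP_563d58_an
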