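import Pool.Agent.P.MP_563d58_an.Gen

set_option autoImplicit false
set_option linter.unusedSectionVars false
open MeasureTheory Filter Topology Complex Metric AddCircle
open scoped Real ComplexConjugate

namespace Pool.Agent.P.MP_563d58_an

noncomputable section

/-- the Cauchy kernel -/
def CK (z : ℂ) (x : T) : ℂ := fourier 1 x / (fourier 1 x - z)

lemma norm_f1 (n : ℤ) (x : T) : ‖fourier n x‖ = 1 := by rw [fourier_apply, Circle.norm_coe]

lemma ck_lb (z : ℂ) (x : T) : 1 - ‖z‖ ≤ ‖fourier 1 x - z‖ := by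
  have := norm_sub_norm_le (fourier 1 x) z
  rwa [norm_f1] at this

lemma ck_ne {z : ℂ} (hz : ‖z‖ < 1) (x : T) : fourier 1 x - z ≠ 0 := by
  have := ck_lb z x
  exact norm_pos_iff.1 (by linarith)

lemma CK_cont {z : ℂ} (hz : ‖z‖ < 1) : Continuous (CK z) :=
  (map_continuous _).div ((map_continuous _).sub continuous_const) (ck_ne hz)

lemma CK_rec {z : ℂ} (hz : ‖z‖ < 1) (n : ℤ) (x : T) :
    CK z x * fourier (n + 1) x = fourier (n + 1) x + z * (CK z x * fourier n x) := by
  have := ck_ne hz x
  rw [fourier_add, CK]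
  field_simp
  ring

lemma CK_int {z : ℂ} (hz : ‖z‖ < 1) : ∫ x, CK z x ∂haarAddCircle = 1 := by
  have hK := CK_cont hz
  set b : ℤ → ℂ := fun n => ∫ x, CK z x * fourier n x ∂haarAddCircle with hb
  have hrec : ∀ n : ℤ, b (n + 1) = (∫ x : T, fourier (n + 1) x ∂haarAddCircle) + z * b n := by
    intro n
    simp only [hb]
    simp_rw [CK_rec hz n]
    rw [integral_add (cont_integrable (by fun_prop)) (cont_integrable (by fun_prop)),
      integral_const_mul]
  have h1 : ∀ m : ℕ, b (-1) = z ^ m * b (-1 - m) := by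
    intro m
    induction m with
    | zero => simp
    | succ m ih =>
      have := hrec (-1 - ((m + 1 : ℕ) : ℤ))
      rw [integral_fourier (by push_cast; omega), zero_add] at this
      have e : (-1 - ((m + 1 : ℕ) : ℤ)) + 1 = -1 - m := by push_cast; ring
      rw [e] at this
      rw [ih, this]; ring
  have hbd : ∀ n, ‖b n‖ ≤ ∫ x, ‖CK z x‖ ∂haarAddCircle := by
    intro n
    refine (norm_integral_le_integral_norm _).trans (le_of_eq ?_)
    congr 1
    funext x
    rw [norm_mul, norm_f1, mul_one]
  have h2 : b (-1) = 0 := by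
    have lim : Tendsto (fun m : ℕ => ‖z‖ ^ m * ∫ x, ‖CK z x‖ ∂haarAddCircle) atTop (𝓝 0) := by
      simpa using (tendsto_pow_atTop_nhds_zero_of_lt_one (norm_nonneg z) hz).mul_const
        (∫ x, ‖CK z x‖ ∂haarAddCircle)
    refine norm_le_zero_iff.1 (ge_of_tendsto' lim fun m => ?_)
    rw [h1 m, norm_mul, norm_pow]
    exact mul_le_mul_of_nonneg_left (hbd _) (by positivity)
  have h3 := hrec (-1)
  rw [h2] at h3
  simpa [hb] using h3

/-- the value at `z` of the analytic extension -/
def ev (z : ℂ) (p : T → ℂ) : ℂ := ∫ x, p x * CK z x ∂haarAddCircle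

lemma ev_const {z : ℂ} (hz : ‖z‖ < 1) (c : ℂ) : ev z (fun _ => c) = c := by
  rw [ev, integral_const_mul, CK_int hz, mul_one]

lemma ev_id {z : ℂ} (hz : ‖z‖ < 1) : ev z (fun x => fourier 1 x) = z := by
  have hK := CK_cont hz
  have e : ∀ x : T, fourier 1 x * CK z x = fourier 1 x + z * CK z x := by
    intro x
    have := CK_rec hz 0 x
    simp only [zero_add, fourier_zero, mul_one] at this
    rw [mul_comm, this]
  rw [ev]
  simp_rw [e]
  rw [integral_add (cont_integrable (by fun_prop)) (cont_integrable (by fun_prop)),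
    integral_const_mul, CK_int hz, integral_fourier one_ne_zero]
  simp

lemma ev_mul {z : ℂ} (hz : ‖z‖ < 1) {p q : T → ℂ} (hp : Continuous p) (hq : Continuous q)
    (Hp : An p) (Hq : An q) : ev z (p * q) = ev z p * ev z q := by
  have hK := CK_cont hz
  set c := ev z p with hc
  have h0 : ∀ n : ℕ, ∫ x, ((p x - c) * CK z x) * fourier (n : ℤ) x ∂haarAddCircle = 0 := by
    intro n
    induction n with
    | zero =>
      simp only [Nat.cast_zero, fourier_zero, mul_one, sub_mul]
      rw [integral_sub (cont_integrable (by fun_prop)) (cont_integrable (by fun_prop)),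
        integral_const_mul, CK_int hz, mul_one, hc, ev, sub_self]
    | succ n ih =>
      have e : ∀ x : T, ((p x - c) * CK z x) * fourier ((n + 1 : ℕ) : ℤ) x
          = (p x * fourier ((n + 1 : ℕ) : ℤ) x - c * fourier ((n + 1 : ℕ) : ℤ) x)
            + z * (((p x - c) * CK z x) * fourier (n : ℤ) x) := by
        intro x
        have := CK_rec hz n x
        push_cast
        linear_combination (p x - c) * this
      simp_rw [e]
      rw [integral_add (cont_integrable (by fun_prop)) (cont_integrable (by fun_prop)),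
        integral_sub (cont_integrable (by fun_prop)) (cont_integrable (by fun_prop)),
        integral_const_mul, integral_const_mul, ih, Hp _ (Nat.succ_pos n),
        integral_fourier (by exact_mod_cast (Nat.succ_pos n).ne')]
      simp
  have key := An.mul_int (p := fun x => (p x - c) * CK z x) (by fun_prop) hq
    (fun n _ => h0 n) Hq
  have h00 := h0 0
  simp only [Nat.cast_zero, fourier_zero, mul_one] at h00
  rw [h00, zero_mul] at key
  have e : ∀ x : T, (p x - c) * CK z x * q x = (p * q) x * CK z x - c * (q x * CK z x) := by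
    intro x; simp only [Pi.mul_apply]; ring
  simp_rw [e] at key
  rw [integral_sub (cont_integrable (by fun_prop)) (cont_integrable (by fun_prop)),
    integral_const_mul] at key
  exact sub_eq_zero.1 key

lemma ev_diff {p : T → ℂ} (hp : Continuous p) :
    DifferentiableOn ℂ (fun z => ev z p) (ball 0 1) := by
  intro z hz
  have hz' : ‖z‖ < 1 := by simpa using hz
  obtain ⟨C, hC⟩ := (isCompact_univ.image hp).isBounded.exists_norm_le
  set r := (1 - ‖z‖) / 2 with hr
  have hr0 : 0 < r := by rw [hr]; linarith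
  have hin : ∀ w ∈ ball z r, ‖w‖ < 1 - r := by
    intro w hw
    have h1 : ‖w - z‖ < r := by simpa [dist_eq_norm] using hw
    have h2 := norm_sub_norm_le w z
    linarith
  have key := hasDerivAt_integral_of_dominated_loc_of_deriv_le (μ := (haarAddCircle : Measure T))
    (F := fun w x => p x * CK w x)
    (F' := fun w x => p x * (fourier 1 x / (fourier 1 x - w) ^ 2)) (x₀ := z) (s := ball z r)
    (bound := fun _ => C * (1 / r ^ 2)) (ball_mem_nhds z hr0)
    (by
      filter_upwards [ball_mem_nhds z hr0] with w hw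
      exact (hp.mul (CK_cont (by linarith [hin w hw]))).aestronglyMeasurable)
    (cont_integrable (hp.mul (CK_cont hz')))
    (hp.mul ((map_continuous _).div (((map_continuous _).sub continuous_const).pow 2)
      fun x => pow_ne_zero 2 (ck_ne hz' x))).aestronglyMeasurable
    (ae_of_all _ fun x w hw => by
      have h1 := ck_lb w x
      have h2 := hin w hw
      have h3 := hC _ ⟨x, trivial, rfl⟩
      rw [norm_mul, norm_div, norm_f1, norm_pow]
      refine mul_le_mul h3 ?_ (by positivity) ((norm_nonneg _).trans h3)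
      exact one_div_le_one_div_of_le (by positivity) (pow_le_pow_left₀ hr0.le (by linarith) 2))
    (integrable_const _)
    (ae_of_all _ fun x w hw => by
      have h1 := ck_ne (z := w) (by linarith [hin w hw]) x
      have h2 : HasDerivAt (fun w : ℂ => fourier 1 x - w) (-1) w := by
        simpa using (hasDerivAt_id w).const_sub (fourier 1 x)
      have h3 := ((hasDerivAt_const w (fourier 1 x)).div h2 h1).const_mul (p x)
      have e : (0 * (fourier 1 x - w) - fourier 1 x * -1) / (fourier 1 x - w) ^ 2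
          = fourier 1 x / (fourier 1 x - w) ^ 2 := by
        rw [zero_mul, zero_sub, mul_neg, neg_neg, mul_one]
      rw [e] at h3
      exact h3)
  exact key.2.differentiableAt.differentiableWithinAt

/-- evaluation at a point of the bidisc -/
def ev2 (z w : ℂ) (Φ : C(T × T, ℂ)) : ℂ := ev w fun y => ev z fun x => Φ (x, y)

section two
variable {z w : ℂ} (hz : ‖z‖ < 1) (hw : ‖w‖ < 1)
include hz

lemma cont_ev (Φ : C(T × T, ℂ)) : Continuous fun y => ev z fun x => Φ (x, y) := by
  have hK := CK_cont hz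
  exact cont_param (p := fun q : T × T => Φ q * CK z q.1) (by fun_prop)

lemma An_ev {Φ : C(T × T, ℂ)} (H : ∀ x, An fun y => Φ (x, y)) :
    An fun y => ev z fun x => Φ (x, y) := by
  have hK := CK_cont hz
  refine An_param (Φ := ⟨fun q : T × T => Φ q * CK z q.1, by fun_prop⟩) fun x n hn => ?_
  have e : ∀ y : T, (Φ (x, y) * CK z x) * fourier (n : ℤ) y
      = CK z x * (Φ (x, y) * fourier (n : ℤ) y) := fun y => by ring
  simp only [ContinuousMap.coe_mk]
  simp_rw [e]
  rw [integral_const_mul, H x n hn, mul_zero]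

include hw

lemma ev2_mul {Φ Ψ : C(T × T, ℂ)} (H1 : ∀ y, An fun x => Φ (x, y))
    (H2 : ∀ x, An fun y => Φ (x, y)) (K1 : ∀ y, An fun x => Ψ (x, y))
    (K2 : ∀ x, An fun y => Ψ (x, y)) : ev2 z w (Φ * Ψ) = ev2 z w Φ * ev2 z w Ψ := by
  unfold ev2
  rw [← ev_mul hw (cont_ev hz Φ) (cont_ev hz Ψ) (An_ev hz H2) (An_ev hz K2)]
  congr 1
  funext y
  rw [Pi.mul_apply, ← ev_mul hz (by fun_prop) (by fun_prop) (H1 y) (K1 y)]
  rfl

omit hw in
lemma ev_add {p q : T → ℂ} (hp : Continuous p) (hq : Continuous q) :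
    ev z (fun x => p x + q x) = ev z p + ev z q := by
  have hK := CK_cont hz
  unfold ev
  simp_rw [add_mul]
  rw [integral_add (cont_integrable (by fun_prop)) (cont_integrable (by fun_prop))]

lemma ev2_add (Φ Ψ : C(T × T, ℂ)) : ev2 z w (Φ + Ψ) = ev2 z w Φ + ev2 z w Ψ := by
  unfold ev2
  rw [← ev_add hw (cont_ev hz Φ) (cont_ev hz Ψ)]
  congr 1
  funext y
  rw [← ev_add hz (by fun_prop) (by fun_prop)]
  rfl

omit hz hw in
lemma ev2_smul (c : ℂ) (Φ : C(T × T, ℂ)) : ev2 z w (c • Φ) = c * ev2 z w Φ := by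
  unfold ev2 ev
  simp [integral_const_mul, mul_assoc]

lemma ev2_const (c : ℂ) : ev2 z w (ContinuousMap.const _ c) = c := by
  unfold ev2
  simp only [ContinuousMap.const_apply, ev_const hz, ev_const hw]

lemma ev2_X1 : ev2 z w X1 = z := by
  unfold ev2 X1
  simp only [ContinuousMap.comp_apply, ContinuousMap.fst_apply, ev_id hz, ev_const hw]

lemma ev2_X2 : ev2 z w X2 = w := by
  unfold ev2 X2
  simp only [ContinuousMap.comp_apply, ContinuousMap.snd_apply, ev_const hz, ev_id hw]

lemma ev2_swap (Φ : C(T × T, ℂ)) : ev2 z w Φ = ev z fun x => ev w fun y => Φ (x, y) := by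
  have hK := CK_cont hz
  have hK' := CK_cont hw
  unfold ev2 ev
  simp_rw [← integral_mul_const]
  rw [integral_integral_swap]
  · congr 1
    funext x
    congr 1
    funext y
    ring
  · apply cont_integrable2
    exact ((Φ.continuous.comp continuous_swap).mul (hK.comp continuous_snd)).mul
      (hK'.comp continuous_fst)

end two

lemma ev2_diff2 {z : ℂ} (hz : ‖z‖ < 1) (Φ : C(T × T, ℂ)) :
    DifferentiableOn ℂ (fun w => ev2 z w Φ) (ball 0 1) := ev_diff (cont_ev hz Φ)

lemma ev2_diff1 {w : ℂ} (hw : ‖w‖ < 1) (Φ : C(T × T, ℂ)) :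
    DifferentiableOn ℂ (fun z => ev2 z w Φ) (ball 0 1) :=
  (ev_diff (cont_ev hw (sw Φ))).congr fun z hz => ev2_swap (by simpa using hz) hw Φ

open Classical in
/-- the characters of the bidisc -/
def chi (z w : ℂ) (f : ℝ → ℂ) : ℂ := if h : ∃ Φ, Rel f Φ then ev2 z w h.choose else 0

lemma chi_eq (z w : ℂ) {f : ℝ → ℂ} {Φ : C(T × T, ℂ)} (hf : Good f) (H : Rel f Φ) :
    chi z w f = ev2 z w Φ := by
  have h : ∃ Φ, Rel f Φ := ⟨Φ, H⟩
  rw [chi, dif_pos h, Appr.unique b1_0 b1_1 hf hf h.choose_spec.1 H.1 (EventuallyEq.refl _ _)]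

end

end Pool.Agent.P.MP_563d58_an
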