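import Pool.Agent.P.MP_563d58_an.Alg

set_option autoImplicit false
set_option linter.unusedSectionVars false
open MeasureTheory Filter Topology Complex Metric AddCircle
open scoped Real ComplexConjugate

namespace Pool.Agent.P.MP_563d58_an

noncomputable section

/-- analytic step function -/
def st (a : ℝ) (w : ℂ) : ℂ := (1 + u a w) / 2

section mob
variable {a : ℝ} (h0 : 0 ≤ a) (h1 : a < 1)
include h0 h1

lemma st_diff : DifferentiableOn ℂ (st a) (closedBall 0 1) := by
  unfold st
  exact ((u_diff h0 h1).const_add 1).div_const 2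

lemma st_norm {w : ℂ} (hw : ‖w‖ ≤ 1) : ‖st a w‖ * ‖1 - a * w‖ ≤ 1 - a := by
  have hd := den_ne h0 h1 hw
  have e : st a w * (1 - a * w) = ((1 - a : ℝ) : ℂ) * ((1 + w) / 2) := by
    have hu : u a w * (1 - a * w) = w - a := div_mul_cancel₀ _ hd
    unfold st
    push_cast
    linear_combination (1 / 2) * hu
  rw [← norm_mul, e, norm_mul, Complex.norm_real, Real.norm_eq_abs, abs_of_pos (by linarith),
    norm_div]
  have h2 : ‖1 + w‖ ≤ 2 := (norm_add_le _ _).trans (by simp; linarith)
  have h3 : ‖1 + w‖ / ‖(2 : ℂ)‖ ≤ 1 := by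
    rw [div_le_one (by simp)]; simpa using h2
  nlinarith

lemma st_le_one {w : ℂ} (hw : ‖w‖ ≤ 1) : ‖st a w‖ ≤ 1 := by
  have h2 := st_norm h0 h1 hw
  have h3 := den_lb h0 h1 hw
  have h4 := norm_nonneg (st a w)
  by_contra h
  push Not at h
  nlinarith

lemma st_small {w : ℂ} (hw : ‖w‖ ≤ 1) : ‖st a w‖ * ‖1 - w‖ ≤ 2 * (1 - a) := by
  have h2 := st_norm h0 h1 hw
  have h3 := den_lb h0 h1 hw
  have h4 := norm_nonneg (st a w)
  have h5 : ‖1 - w‖ ≤ 2 * ‖1 - a * w‖ := by
    have e : 1 - w = (1 - a * w) - ((1 - a : ℝ) : ℂ) * w := by push_cast; ring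
    have h6 := norm_sub_le (1 - a * w) (((1 - a : ℝ) : ℂ) * w)
    rw [← e, norm_mul, Complex.norm_real, Real.norm_eq_abs, abs_of_pos (by linarith)] at h6
    nlinarith [norm_nonneg w]
  nlinarith

lemma st_big {w : ℂ} (hw : ‖w‖ ≤ 1) : ‖1 - st a w‖ * (1 - a) ≤ ‖1 - w‖ := by
  have hd := den_ne h0 h1 hw
  have h3 := den_lb h0 h1 hw
  have e : (1 - st a w) * (1 - a * w) = (((1 + a) / 2 : ℝ) : ℂ) * (1 - w) := by
    have hu : u a w * (1 - a * w) = w - a := div_mul_cancel₀ _ hd
    unfold st
    push_cast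
    linear_combination (-1 / 2) * hu
  have h4 := congrArg norm e
  rw [norm_mul, norm_mul, Complex.norm_real, Real.norm_eq_abs, abs_of_pos (by linarith)] at h4
  nlinarith [norm_nonneg (1 - st a w), norm_nonneg (1 - w)]

lemma st_sq (t : ℝ) : ‖st a (E t)‖ ^ 2 = (st a (E t)).re := by
  have h2 := norm_u_E h0 h1 t
  have h3 : (u a (E t)).re ^ 2 + (u a (E t)).im ^ 2 = 1 := by
    have := Complex.sq_norm (u a (E t))
    rw [h2, Complex.normSq_apply] at this
    nlinarith
  rw [Complex.sq_norm, Complex.normSq_apply, st]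
  simp
  nlinarith

lemma st_sq' (t : ℝ) : ‖1 - st a (E t)‖ ^ 2 = (1 - st a (E t)).re := by
  have h2 := st_sq h0 h1 t
  rw [Complex.sq_norm, Complex.normSq_apply] at h2 ⊢
  simp
  nlinarith

lemma amgm_int {h : ℂ → ℂ} (hh : DifferentiableOn ℂ h (closedBall 0 1))
    (hsq : ∀ t, ‖h (E t)‖ ^ 2 = (h (E t)).re) {d : ℝ} (hd : 0 < d) (hb : ‖h a‖ ≤ d ^ 2) :
    ∫ t in (0:ℝ)..(2 * π), ‖h (E t)‖ * Pk a t ≤ 2 * π * d := by
  have ha := norm_a h0 h1
  have hP := continuous_Pk ha
  have hc : Continuous fun t => h (E t) := by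
    apply hh.continuousOn.comp_continuous continuous_E
    intro t; simp [norm_E]
  have e1 := poisson_re hh ha
  have e2 : ∫ t in (0:ℝ)..(2 * π), (d / 2 * Pk a t + 1 / (2 * d) * ((h (E t)).re * Pk a t))
      = d / 2 * (2 * π) + 1 / (2 * d) * (2 * π * (h a).re) := by
    rw [intervalIntegral.integral_add, intervalIntegral.integral_const_mul,
      intervalIntegral.integral_const_mul, integral_Pk ha, e1]
    · exact (continuous_const.mul hP).intervalIntegrable _ _
    · apply Continuous.intervalIntegrable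
      exact continuous_const.mul ((continuous_re.comp hc).mul hP)
  have e3 : ∫ t in (0:ℝ)..(2 * π), ‖h (E t)‖ * Pk a t
      ≤ ∫ t in (0:ℝ)..(2 * π), (d / 2 * Pk a t + 1 / (2 * d) * ((h (E t)).re * Pk a t)) := by
    apply intervalIntegral.integral_mono_on Real.two_pi_pos.le
    · exact (hc.norm.mul hP).intervalIntegrable _ _
    · apply Continuous.intervalIntegrable
      exact (continuous_const.mul hP).add (continuous_const.mul ((continuous_re.comp hc).mul hP))
    · intro t _
      rw [← hsq, ← mul_assoc, ← add_mul]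
      apply mul_le_mul_of_nonneg_right _ (Pk_pos ha t).le
      have : d / 2 + 1 / (2 * d) * ‖h (E t)‖ ^ 2 - ‖h (E t)‖ = (d - ‖h (E t)‖) ^ 2 / (2 * d) := by
        field_simp; ring
      have h2 : 0 ≤ (d - ‖h (E t)‖) ^ 2 / (2 * d) := by positivity
      linarith
  have h4 : (h a).re ≤ d ^ 2 := (Complex.re_le_norm _).trans hb
  have h5 : 1 / (2 * d) * (2 * π * (h a).re) ≤ 1 / (2 * d) * (2 * π * d ^ 2) := by
    gcongr
  have h6 : d / 2 * (2 * π) + 1 / (2 * d) * (2 * π * d ^ 2) = 2 * π * d := by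
    field_simp; ring
  linarith

end mob

/-- summable small weights -/
def gam (k : ℕ) : ℝ := (1 / 2) ^ (k + 2)

/-- the scales -/
def eps : ℕ → ℝ
  | 0 => 1 / 2
  | k + 1 => eps k * gam k ^ 2 * gam (k + 1) ^ 2 / 2

/-- the points tending to the boundary -/
def aa (k : ℕ) : ℝ := 1 - eps k

lemma gam_pos (k : ℕ) : 0 < gam k := by unfold gam; positivity

lemma gam_le (k : ℕ) : gam k ≤ 1 / 4 := by
  unfold gam
  rw [pow_add]
  have : ((1 : ℝ) / 2) ^ k ≤ 1 := pow_le_one₀ (by norm_num) (by norm_num)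
  nlinarith

lemma gam_sq_le (k : ℕ) : gam k ^ 2 ≤ 1 := by
  nlinarith [gam_pos k, gam_le k]

lemma sum_gam (n : ℕ) : ∑ j ∈ Finset.range n, gam j ≤ 1 / 2 := by
  have : ∑ j ∈ Finset.range n, gam j = 1 / 2 - 2 * gam n := by
    induction n with
    | zero => simp [gam]; norm_num
    | succ n ih => rw [Finset.sum_range_succ, ih]; unfold gam; ring
  linarith [gam_pos n]

lemma tendsto_gam : Tendsto gam atTop (𝓝 0) := by
  unfold gam
  exact (tendsto_pow_atTop_nhds_zero_of_lt_one (by norm_num) (by norm_num)).comp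
    (tendsto_add_atTop_nat 2)

lemma eps_pos (k : ℕ) : 0 < eps k := by
  induction k with
  | zero => simp [eps]
  | succ k ih => unfold eps; have := gam_pos k; have := gam_pos (k + 1); positivity

lemma eps_le (k : ℕ) : eps k ≤ (1 / 2) ^ k := by
  induction k with
  | zero => simp [eps]; norm_num
  | succ k ih =>
    unfold eps
    have h1 := gam_sq_le k
    have h2 := gam_sq_le (k + 1)
    have h3 := eps_pos k
    have h4 : eps k * gam k ^ 2 ≤ eps k := by nlinarith
    have h5 : eps k * gam k ^ 2 * gam (k + 1) ^ 2 ≤ eps k * gam k ^ 2 := by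
      have : 0 ≤ eps k * gam k ^ 2 := by positivity
      nlinarith
    rw [pow_succ (1 / 2 : ℝ)]
    linarith

lemma eps_lac {i j : ℕ} (h : i < j) : 2 * eps j ≤ gam i ^ 2 * gam j ^ 2 * eps i := by
  induction j, h using Nat.le_induction with
  | base => rw [eps]; apply le_of_eq; ring
  | succ j _ ih =>
    rw [eps]
    have h1 := gam_sq_le j
    have h3 := eps_pos j
    have h4 := eps_pos i
    have h5 : 0 ≤ gam i ^ 2 * eps i := by positivity
    have h6 : eps j * gam j ^ 2 ≤ gam i ^ 2 * eps i := by nlinarith [sq_nonneg (gam j)]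
    have h7 : 0 ≤ gam (j + 1) ^ 2 := by positivity
    nlinarith

lemma aa_nonneg (k : ℕ) : 0 ≤ aa k := by
  have := eps_le k
  have h : ((1 : ℝ) / 2) ^ k ≤ 1 := pow_le_one₀ (by norm_num) (by norm_num)
  unfold aa; linarith

lemma aa_lt (k : ℕ) : aa k < 1 := by
  have := eps_pos k
  unfold aa; linarith

lemma tendsto_eps : Tendsto eps atTop (𝓝 0) :=
  squeeze_zero (fun k => (eps_pos k).le) eps_le
    (tendsto_pow_atTop_nhds_zero_of_lt_one (by norm_num) (by norm_num))

lemma tendsto_aa : Tendsto aa atTop (𝓝 1) := by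
  have := tendsto_eps.const_sub 1
  rw [sub_zero] at this
  exact this

lemma one_sub_aa (k : ℕ) : 1 - aa k = eps k := by simp [aa]

/-- partial sums -/
def PS (c : ℕ → ℂ) (n : ℕ) (w : ℂ) : ℂ :=
  c 0 + ∑ k ∈ Finset.range n, (c (k + 1) - c k) * st (aa k) w

/-- error terms relative to the active scale K -/
def er (K j : ℕ) (w : ℂ) : ℝ :=
  if j < K then ‖1 - st (aa j) w‖ else if j = K then 0 else ‖st (aa j) w‖

lemma PS_diff (c : ℕ → ℂ) (n : ℕ) : DifferentiableOn ℂ (PS c n) (closedBall 0 1) := by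
  unfold PS
  apply DifferentiableOn.const_add
  apply DifferentiableOn.fun_sum
  intro k _
  exact (st_diff (aa_nonneg k) (aa_lt k)).const_mul _

lemma continuous_PS (c : ℕ → ℂ) (n : ℕ) : Continuous fun t => PS c n (E t) := by
  apply (PS_diff c n).continuousOn.comp_continuous continuous_E
  intro t; simp [norm_E]

lemma continuous_st (k : ℕ) : Continuous fun t => st (aa k) (E t) := by
  apply (st_diff (aa_nonneg k) (aa_lt k)).continuousOn.comp_continuous continuous_E
  intro t; simp [norm_E]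

lemma continuous_er (K j : ℕ) : Continuous fun t => er K j (E t) := by
  unfold er
  split_ifs
  · exact (continuous_const.sub (continuous_st j)).norm
  · exact continuous_const
  · exact (continuous_st j).norm

section seq
variable {c : ℕ → ℂ} (hc : ∀ k, ‖c k‖ = 1)
include hc

lemma d_le (k : ℕ) : ‖c (k + 1) - c k‖ ≤ 2 := by
  have := norm_sub_le (c (k + 1)) (c k)
  rw [hc, hc] at this
  linarith

lemma PS_err (K n : ℕ) (w : ℂ) :
    ‖PS c n w - (if K < n then c K + (c (K + 1) - c K) * st (aa K) w else c n)‖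
      ≤ ∑ j ∈ Finset.range n, 2 * er K j w := by
  induction n with
  | zero => simp [PS]
  | succ n ih =>
    have e : PS c (n + 1) w = PS c n w + (c (n + 1) - c n) * st (aa n) w := by
      simp only [PS, Finset.sum_range_succ]; ring
    rw [Finset.sum_range_succ, e]
    rcases lt_trichotomy n K with h | h | h
    · rw [if_neg (by omega)] at ih ⊢
      have e2 : PS c n w + (c (n + 1) - c n) * st (aa n) w - c (n + 1)
          = (PS c n w - c n) - (c (n + 1) - c n) * (1 - st (aa n) w) := by ring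
      rw [e2]
      refine (norm_sub_le _ _).trans (add_le_add ih ?_)
      rw [norm_mul, er, if_pos h]
      exact mul_le_mul_of_nonneg_right (d_le hc n) (norm_nonneg _)
    · subst h
      rw [if_neg (by omega)] at ih
      rw [if_pos (by omega), er, if_neg (by omega), if_pos rfl]
      have e2 : PS c n w + (c (n + 1) - c n) * st (aa n) w - (c n + (c (n + 1) - c n) * st (aa n) w)
          = PS c n w - c n := by ring
      rw [e2]
      simpa using ih
    · rw [if_pos (by omega)] at ih ⊢
      have e2 : PS c n w + (c (n + 1) - c n) * st (aa n) w - (c K + (c (K + 1) - c K) * st (aa K) w)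
          = (PS c n w - (c K + (c (K + 1) - c K) * st (aa K) w))
            + (c (n + 1) - c n) * st (aa n) w := by ring
      rw [e2]
      refine (norm_add_le _ _).trans (add_le_add ih ?_)
      rw [norm_mul, er, if_neg (by omega), if_neg (by omega)]
      exact mul_le_mul_of_nonneg_right (d_le hc n) (norm_nonneg _)

omit hc in
lemma exists_active {w : ℂ} (hw : ‖w‖ ≤ 1) (hw1 : w ≠ 1) :
    ∃ K, ∀ n, ∑ j ∈ Finset.range n, 2 * er K j w ≤ 1 / 4 := by
  have hr : 0 < ‖1 - w‖ := norm_pos_iff.2 (sub_ne_zero.2 hw1.symm)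
  have hex : ∃ k, eps k * gam k ^ 2 ≤ ‖1 - w‖ := by
    obtain ⟨k, hk⟩ := (tendsto_eps.eventually (gt_mem_nhds hr)).exists
    refine ⟨k, ?_⟩
    nlinarith [gam_sq_le k, eps_pos k]
  classical
  refine ⟨Nat.find hex, fun n => ?_⟩
  have key : ∀ j, er (Nat.find hex) j w ≤ gam j ^ 2 := by
    intro j
    unfold er
    split_ifs with h2 h3
    · have h4 := Nat.find_min hex h2
      have h5 := st_big (aa_nonneg j) (aa_lt j) hw
      rw [one_sub_aa] at h5
      have h6 := eps_pos j
      by_contra h7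
      push Not at h7 h4
      nlinarith
    · positivity
    · have h4 := Nat.find_spec hex
      have h5 := st_small (aa_nonneg j) (aa_lt j) hw
      rw [one_sub_aa] at h5
      have h6 := eps_lac (i := Nat.find hex) (j := j) (by omega)
      have h7 : gam (Nat.find hex) ^ 2 * gam j ^ 2 * eps (Nat.find hex) ≤ gam j ^ 2 * ‖1 - w‖ := by
        nlinarith [sq_nonneg (gam j)]
      by_contra h8
      push Not at h8
      nlinarith
  have h2 : ∑ j ∈ Finset.range n, 2 * er (Nat.find hex) j w
      ≤ ∑ j ∈ Finset.range n, 1 / 2 * gam j := by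
    apply Finset.sum_le_sum
    intro j _
    nlinarith [key j, gam_le j, gam_pos j]
  rw [← Finset.mul_sum (a := 1 / 2)] at h2
  linarith [sum_gam n]

lemma PS_bound {w : ℂ} (hw : ‖w‖ ≤ 1) (hw1 : w ≠ 1) (n : ℕ) : ‖PS c n w‖ ≤ 4 := by
  obtain ⟨K, hK⟩ := exists_active hw hw1
  have h1 := (PS_err hc K n w).trans (hK n)
  have h2 : ‖(if K < n then c K + (c (K + 1) - c K) * st (aa K) w else c n)‖ ≤ 3 := by
    split_ifs
    · refine (norm_add_le _ _).trans ?_
      rw [hc, norm_mul]
      have := mul_le_mul (d_le hc K) (st_le_one (aa_nonneg K) (aa_lt K) hw) (norm_nonneg _)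
        (by norm_num)
      linarith
    · rw [hc]; norm_num
  have h3 := norm_sub_norm_le (PS c n w)
    (if K < n then c K + (c (K + 1) - c K) * st (aa K) w else c n)
  linarith

end seq

/-- the bounded analytic function attached to a unimodular sequence -/
def FF (c : ℕ → ℂ) (w : ℂ) : ℂ := c 0 + ∑' k, (c (k + 1) - c k) * st (aa k) w

lemma ae_E_ne : ∀ᵐ t : ℝ, E t ≠ 1 := by
  have hc : (Set.range fun n : ℤ => (n : ℝ) * (2 * π)).Countable := Set.countable_range _
  filter_upwards [hc.ae_notMem volume] with t ht h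
  apply ht
  obtain ⟨n, hn⟩ := Complex.exp_eq_one_iff.1 h
  refine ⟨n, ?_⟩
  have h2 : (t : ℂ) = n * (2 * π) := by
    apply mul_right_cancel₀ Complex.I_ne_zero
    rw [hn]; ring
  exact_mod_cast h2.symm

section seq
variable {c : ℕ → ℂ} (hc : ∀ k, ‖c k‖ = 1)
include hc

lemma tendsto_PS {w : ℂ} (hw : ‖w‖ ≤ 1) (hw1 : w ≠ 1) :
    Tendsto (fun n => PS c n w) atTop (𝓝 (FF c w)) := by
  have hr : 0 < ‖1 - w‖ := norm_pos_iff.2 (sub_ne_zero.2 hw1.symm)
  have hs : Summable fun k => (c (k + 1) - c k) * st (aa k) w := by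
    refine Summable.of_norm_bounded
      ((summable_geometric_two.mul_left (4 / ‖1 - w‖))) fun k => ?_
    have h5 := st_small (aa_nonneg k) (aa_lt k) hw
    rw [one_sub_aa] at h5
    have h6 : ‖st (aa k) w‖ ≤ 2 / ‖1 - w‖ * (1 / 2) ^ k := by
      rw [div_mul_eq_mul_div, le_div_iff₀ hr]
      linarith [eps_le k]
    rw [norm_mul]
    calc _ ≤ 2 * (2 / ‖1 - w‖ * (1 / 2) ^ k) :=
          mul_le_mul (d_le hc k) h6 (norm_nonneg _) (by norm_num)
      _ = _ := by ring
  exact hs.hasSum.tendsto_sum_nat.const_add _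

lemma good_FF : Good fun t => FF c (E t) := by
  refine ⟨?_, 4, by norm_num, ?_⟩
  · refine aestronglyMeasurable_of_tendsto_ae atTop
      (fun n => (continuous_PS c n).aestronglyMeasurable) ?_
    filter_upwards [ae_E_ne] with t ht
    exact tendsto_PS hc (norm_E t).le ht
  · filter_upwards [ae_E_ne] with t ht
    exact le_of_tendsto' (tendsto_PS hc (norm_E t).le ht).norm
      fun n => PS_bound hc (norm_E t).le ht n

lemma tendsto_int {W : ℝ → ℂ} (hW : Continuous W) :
    Tendsto (fun n => ∫ t in (0:ℝ)..(2 * π), PS c n (E t) * W t) atTop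
      (𝓝 (∫ t in (0:ℝ)..(2 * π), FF c (E t) * W t)) := by
  refine intervalIntegral.tendsto_integral_filter_of_dominated_convergence
    (fun t => 4 * ‖W t‖) ?_ ?_ ?_ ?_
  · exact Eventually.of_forall fun n => ((continuous_PS c n).mul hW).aestronglyMeasurable
  · refine Eventually.of_forall fun n => ?_
    filter_upwards [ae_E_ne] with t ht _
    rw [norm_mul]
    exact mul_le_mul_of_nonneg_right (PS_bound hc (norm_E t).le ht n) (norm_nonneg _)
  · exact (continuous_const.mul hW.norm).intervalIntegrable _ _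
  · filter_upwards [ae_E_ne] with t ht _
    exact (tendsto_PS hc (norm_E t).le ht).mul_const _

lemma FF_an (n : ℕ) (hn : 0 < n) : ∫ t in (0:ℝ)..(2 * π), FF c (E t) * E t ^ n = 0 := by
  have h1 := tendsto_int hc (W := fun t => E t ^ n) (continuous_E.pow n)
  have h2 : ∀ m, ∫ t in (0:ℝ)..(2 * π), PS c m (E t) * E t ^ n = 0 := by
    intro m
    have := mean_value (h := fun w => PS c m w * w ^ n) ((PS_diff c m).mul (by fun_prop))
    simpa [hn.ne'] using this
  simp_rw [h2] at h1
  exact (tendsto_nhds_unique tendsto_const_nhds h1).symm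

lemma FF_poisson {z : ℂ} (hz : ‖z‖ < 1) :
    ∫ t in (0:ℝ)..(2 * π), FF c (E t) * (Pk z t : ℂ) = 2 * π * FF c z := by
  have h1 := tendsto_int hc (continuous_ofReal.comp (continuous_Pk hz))
  have h2 : ∀ m, ∫ t in (0:ℝ)..(2 * π), PS c m (E t) * (Pk z t : ℂ) = 2 * π * PS c m z :=
    fun m => poisson (PS_diff c m) hz
  simp only [Function.comp_apply, h2] at h1
  have hz1 : z ≠ 1 := by rintro rfl; simp at hz
  exact tendsto_nhds_unique h1 ((tendsto_PS hc hz.le hz1).const_mul _)

lemma N_FF (K : ℕ) :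
    N (aa K) (fun t => FF c (E t) - (c K + (c (K + 1) - c K) * st (aa K) (E t)))
      ≤ 2 * π * gam K := by
  have ha := norm_a (aa_nonneg K) (aa_lt K)
  have hP := continuous_Pk ha
  have hψ : Continuous fun t => c K + (c (K + 1) - c K) * st (aa K) (E t) :=
    continuous_const.add (continuous_const.mul (continuous_st K))
  have lim : Tendsto (fun n => N (aa K)
      (fun t => PS c n (E t) - (c K + (c (K + 1) - c K) * st (aa K) (E t)))) atTop
      (𝓝 (N (aa K) (fun t => FF c (E t) - (c K + (c (K + 1) - c K) * st (aa K) (E t))))) := by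
    refine intervalIntegral.tendsto_integral_filter_of_dominated_convergence
      (fun t => (4 + ‖c K + (c (K + 1) - c K) * st (aa K) (E t)‖) * Pk (aa K) t) ?_ ?_ ?_ ?_
    · exact Eventually.of_forall fun n =>
        (((continuous_PS c n).sub hψ).norm.mul hP).aestronglyMeasurable
    · refine Eventually.of_forall fun n => ?_
      filter_upwards [ae_E_ne] with t ht _
      rw [norm_mul, norm_norm, Real.norm_eq_abs, abs_of_pos (Pk_pos ha t)]
      apply mul_le_mul_of_nonneg_right _ (Pk_pos ha t).le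
      exact (norm_sub_le _ _).trans (add_le_add (PS_bound hc (norm_E t).le ht n) le_rfl)
    · exact ((continuous_const.add hψ.norm).mul hP).intervalIntegrable _ _
    · filter_upwards [ae_E_ne] with t ht _
      exact ((tendsto_PS hc (norm_E t).le ht).sub_const _).norm.mul_const _
  refine le_of_tendsto lim ?_
  filter_upwards [eventually_gt_atTop K] with n hn
  have hj : ∀ j, ∫ t in (0:ℝ)..(2 * π), er K j (E t) * Pk (aa K) t ≤ 2 * π * (gam K * gam j) := by
    intro j
    have hd : 0 < gam K * gam j := mul_pos (gam_pos K) (gam_pos j)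
    have hn1 : ‖(1 : ℂ) - (aa K : ℂ)‖ = eps K := by
      rw [← one_sub_aa]
      have : (1 : ℂ) - (aa K : ℂ) = ((1 - aa K : ℝ) : ℂ) := by push_cast; rfl
      rw [this, Complex.norm_real, Real.norm_eq_abs, abs_of_pos (by linarith [aa_lt K])]
    unfold er
    split_ifs with h2 h3
    · refine amgm_int (aa_nonneg K) (aa_lt K) (h := fun w => 1 - st (aa j) w)
        ((st_diff (aa_nonneg j) (aa_lt j)).const_sub 1) (st_sq' (aa_nonneg j) (aa_lt j)) hd ?_
      have h5 := st_big (aa_nonneg j) (aa_lt j) ha.le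
      rw [one_sub_aa, hn1] at h5
      have h6 := eps_lac h2
      have h7 := eps_pos j
      have h8 := eps_pos K
      by_contra h9
      push Not at h9
      nlinarith
    · simp only [zero_mul, intervalIntegral.integral_zero]
      positivity
    · refine amgm_int (aa_nonneg K) (aa_lt K) (h := fun w => st (aa j) w)
        (st_diff (aa_nonneg j) (aa_lt j)) (st_sq (aa_nonneg j) (aa_lt j)) hd ?_
      have h5 := st_small (aa_nonneg j) (aa_lt j) ha.le
      rw [one_sub_aa, hn1] at h5
      have h6 := eps_lac (i := K) (j := j) (by omega)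
      have h8 := eps_pos K
      by_contra h9
      push Not at h9
      nlinarith
  have e1 : N (aa K) (fun t => PS c n (E t) - (c K + (c (K + 1) - c K) * st (aa K) (E t)))
      ≤ ∫ t in (0:ℝ)..(2 * π), ∑ j ∈ Finset.range n, 2 * (er K j (E t) * Pk (aa K) t) := by
    apply intervalIntegral.integral_mono_on Real.two_pi_pos.le
    · exact (((continuous_PS c n).sub hψ).norm.mul hP).intervalIntegrable _ _
    · apply Continuous.intervalIntegrable
      exact continuous_finsetSum _ fun j _ => continuous_const.mul ((continuous_er K j).mul hP)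
    · intro t _
      have h2 := PS_err hc K n (E t)
      rw [if_pos hn] at h2
      simp_rw [← mul_assoc]
      rw [← Finset.sum_mul]
      exact mul_le_mul_of_nonneg_right h2 (Pk_pos ha t).le
  rw [intervalIntegral.integral_finsetSum (f := fun j t => 2 * (er K j (E t) * Pk (aa K) t))
    fun j _ => (continuous_const.mul ((continuous_er K j).mul hP)).intervalIntegrable _ _] at e1
  refine e1.trans ?_
  have e2 : ∑ j ∈ Finset.range n, ∫ t in (0:ℝ)..(2 * π), 2 * (er K j (E t) * Pk (aa K) t)
      ≤ ∑ j ∈ Finset.range n, (4 * π * gam K) * gam j := by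
    apply Finset.sum_le_sum
    intro j _
    rw [intervalIntegral.integral_const_mul]
    linarith [hj j]
  refine e2.trans ?_
  rw [← Finset.mul_sum]
  have : 0 < 4 * π * gam K := by have := gam_pos K; positivity
  nlinarith [sum_gam n]

end seq

lemma FF_lower {c d : ℕ → ℂ} (hc : ∀ k, ‖c k‖ = 1) (hd : ∀ k, ‖d k‖ = 1)
    (H : ∀ k, c (k + 1) = c k ∨ d (k + 1) = d k) {z : ℂ} (hz : ‖z‖ < 1) :
    1 / 2 ≤ ‖FF c z‖ ∨ 1 / 2 ≤ ‖FF d z‖ := by
  have hz1 : z ≠ 1 := by rintro rfl; simp at hz
  obtain ⟨K, hK⟩ := exists_active hz.le hz1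
  have key : ∀ {c : ℕ → ℂ}, (∀ k, ‖c k‖ = 1) → c (K + 1) = c K → 1 / 2 ≤ ‖FF c z‖ := by
    intro c hc h
    refine ge_of_tendsto (tendsto_PS hc hz.le hz1).norm ?_
    filter_upwards [eventually_gt_atTop K] with n hn
    have h1 := (PS_err hc K n z).trans (hK n)
    rw [if_pos hn, h, sub_self, zero_mul, add_zero, norm_sub_rev] at h1
    have h2 := norm_sub_norm_le (c K) (PS c n z)
    rw [hc] at h2
    linarith
  exact (H K).imp (key hc) (key hd)

end

end Pool.Agent.P.MP_563d58_an
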