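import Pool.Agent.P.MP_563d58_an.Main

set_option autoImplicit false
set_option linter.unusedSectionVars false
open MeasureTheory Filter Topology Complex Metric AddCircle
open scoped Real ComplexConjugate

namespace Pool.Agent.P.MP_563d58_an

noncomputable section

/-- `S` is (the set of representatives of) a closed C*-subalgebra of `L^∞` of the circle that
contains the continuous functions; functions on the circle are `2π`-periodic functions on `ℝ`. -/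
def Adm (S : Set (ℝ → ℂ)) : Prop :=
  (∀ f ∈ S, Function.Periodic f (2 * Real.pi) ∧ AEStronglyMeasurable f volume ∧
      eLpNorm f (⊤ : ENNReal) volume < ⊤) ∧
  (∀ f : ℝ → ℂ, Continuous f → Function.Periodic f (2 * Real.pi) → f ∈ S) ∧
  (∀ f ∈ S, ∀ g ∈ S, f + g ∈ S) ∧
  (∀ f ∈ S, ∀ g ∈ S, f * g ∈ S) ∧
  (∀ c : ℂ, ∀ f ∈ S, c • f ∈ S) ∧
  (∀ f ∈ S, (fun t => star (f t)) ∈ S) ∧
  (∀ (F : ℕ → ℝ → ℂ) (f : ℝ → ℂ), (∀ n, F n ∈ S) → Function.Periodic f (2 * Real.pi) →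
      AEStronglyMeasurable f volume →
      Tendsto (fun n => eLpNorm (F n - f) (⊤ : ENNReal) volume) atTop (𝓝 0) → f ∈ S)

lemma adm_SS : Adm SS :=
  ⟨fun _ hf => ⟨hf.1, good_iff.1 hf.2.1⟩,
    fun _ hc hp => ⟨hp, good_of_periodic hc hp, _, rel_const hc hp⟩,
    fun _ ⟨pf, gf, _, hΦ⟩ _ ⟨pg, gg, _, hΨ⟩ => ⟨pf.add pg, gf.add gg, _, hΦ.add gf gg hΨ⟩,
    fun _ ⟨pf, gf, _, hΦ⟩ _ ⟨pg, gg, _, hΨ⟩ => ⟨pf.mul pg, gf.mul gg, _, hΦ.mul gf gg hΨ⟩,
    fun c _ ⟨pf, gf, _, hΦ⟩ => ⟨pf.smul c, gf.smul c, _, hΦ.smul c gf⟩,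
    fun f ⟨pf, gf, _, hΦ⟩ => ⟨fun t => by simp only [pf t], gf.star, _, hΦ.star gf⟩,
    SS_closed⟩

/-- the smallest admissible set that contains a given subset of `SS` -/
def gen (U : Set (ℝ → ℂ)) : Set (ℝ → ℂ) := {h | ∀ S, Adm S → U ⊆ S → h ∈ S}

lemma gen_sub {U : Set (ℝ → ℂ)} (hU : U ⊆ SS) : gen U ⊆ SS := fun _ h => h SS adm_SS hU

lemma adm_gen {U : Set (ℝ → ℂ)} (hU : U ⊆ SS) : Adm (gen U) :=
  ⟨fun f hf => adm_SS.1 f (gen_sub hU hf),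
    fun f hc hp _ hS _ => hS.2.1 f hc hp,
    fun f hf g hg S hS h => hS.2.2.1 f (hf S hS h) g (hg S hS h),
    fun f hf g hg S hS h => hS.2.2.2.1 f (hf S hS h) g (hg S hS h),
    fun c f hf S hS h => hS.2.2.2.2.1 c f (hf S hS h),
    fun f hf S hS h => hS.2.2.2.2.2.1 f (hf S hS h),
    fun F f hF hp hm hl S hS h => hS.2.2.2.2.2.2 F f (fun n => hF n S hS h) hp hm hl⟩

lemma FF_contOn {c : ℕ → ℂ} (hc : ∀ k, ‖c k‖ = 1) {r : ℝ} (hr : 0 < r) :
    ContinuousOn (FF c) {w | ‖w‖ ≤ 1 ∧ r ≤ ‖1 - w‖} := by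
  unfold FF
  refine continuousOn_const.add ?_
  refine continuousOn_tsum (u := fun k => 4 / r * (1 / 2 : ℝ) ^ k) (fun k => ?_)
    (summable_geometric_two.mul_left (4 / r)) (fun k w hw => ?_)
  · refine continuousOn_const.mul
      ((st_diff (aa_nonneg k) (aa_lt k)).continuousOn.mono fun w hw => ?_)
    simpa using hw.1
  · have h5 := st_small (aa_nonneg k) (aa_lt k) hw.1
    rw [one_sub_aa] at h5
    have h7 : ‖st (aa k) w‖ * r ≤ ‖st (aa k) w‖ * ‖1 - w‖ :=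
      mul_le_mul_of_nonneg_left hw.2 (norm_nonneg _)
    have h6 : ‖st (aa k) w‖ ≤ 2 / r * (1 / 2) ^ k := by
      rw [div_mul_eq_mul_div, le_div_iff₀ hr]
      linarith [eps_le k]
    rw [norm_mul]
    calc _ ≤ 2 * (2 / r * (1 / 2) ^ k) :=
          mul_le_mul (d_le hc k) h6 (norm_nonneg _) (by norm_num)
      _ = _ := by ring

lemma FF_contAt {c : ℕ → ℂ} (hc : ∀ k, ‖c k‖ = 1) {t : ℝ} (ht : E t ≠ 1) :
    ContinuousAt (fun t => FF c (E t)) t := by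
  have hr : 0 < ‖1 - E t‖ := norm_pos_iff.2 (sub_ne_zero.2 ht.symm)
  have hcont : Continuous fun s => ‖1 - E s‖ := (continuous_const.sub continuous_E).norm
  have hn : {s : ℝ | ‖1 - E t‖ / 2 < ‖1 - E s‖} ∈ 𝓝 t :=
    (isOpen_lt continuous_const hcont).mem_nhds (by simp only [Set.mem_ofPred_eq]; linarith)
  have h1 : ContinuousOn (fun s => FF c (E s)) {s : ℝ | ‖1 - E t‖ / 2 < ‖1 - E s‖} :=
    (FF_contOn hc (half_pos hr)).comp continuous_E.continuousOn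
      fun s hs => ⟨(norm_E s).le, le_of_lt hs⟩
  exact h1.continuousAt hn

end

end Pool.Agent.P.MP_563d58_an
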