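import Pool.Agent.P.MP_563d58_an.Func

set_option autoImplicit false
set_option linter.unusedSectionVars false
open MeasureTheory Filter Topology Complex Metric AddCircle
open scoped Real ComplexConjugate

namespace Pool.Agent.P.MP_563d58_an

noncomputable section

/-- the values visited -/
def XX (j : ℕ) : ℂ := if j % 3 = 0 then -1 else if j % 3 = 1 then 1 else fourier 1 (mu (j / 3))

/-- first coordinates of the path on the torus -/
def xs (k : ℕ) : ℂ := XX ((k + 1) / 2)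

/-- second coordinates of the path on the torus -/
def ys (k : ℕ) : ℂ := XX ((k + 4) / 2)

lemma norm_XX (j : ℕ) : ‖XX j‖ = 1 := by
  unfold XX
  split_ifs
  · simp
  · simp
  · rw [fourier_apply, Circle.norm_coe]

lemma XX0 (m : ℕ) : XX (3 * m) = -1 := by
  unfold XX; rw [if_pos (by omega)]

lemma XX1 (m : ℕ) : XX (3 * m + 1) = 1 := by
  unfold XX; rw [if_neg (by omega), if_pos (by omega)]

lemma XX2 (m : ℕ) : XX (3 * m + 2) = fourier 1 (mu m) := by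
  unfold XX; rw [if_neg (by omega), if_neg (by omega)]
  congr 2
  omega

lemma xs_ys (k : ℕ) : xs (k + 1) = xs k ∨ ys (k + 1) = ys k := by
  unfold xs ys
  rcases Nat.mod_two_eq_zero_or_one k with h | h
  · right; congr 1; omega
  · left; congr 1; omega

/-- scales of the first kind -/
def b1 (m : ℕ) : ℝ := aa (6 * m)

/-- scales of the second kind -/
def b2 (m : ℕ) : ℝ := aa (6 * m + 3)

lemma b1_0 (m : ℕ) : 0 ≤ b1 m := aa_nonneg _
lemma b1_1 (m : ℕ) : b1 m < 1 := aa_lt _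
lemma b2_0 (m : ℕ) : 0 ≤ b2 m := aa_nonneg _
lemma b2_1 (m : ℕ) : b2 m < 1 := aa_lt _

lemma t6 : Tendsto (fun m : ℕ => 6 * m) atTop atTop :=
  tendsto_atTop_mono (fun m => by simp only [id]; omega) tendsto_id

lemma t63 : Tendsto (fun m : ℕ => 6 * m + 3) atTop atTop :=
  tendsto_atTop_mono (fun m => by simp only [id]; omega) tendsto_id

/-- exchange of the coordinates -/
def sw (Φ : C(T × T, ℂ)) : C(T × T, ℂ) := Φ.comp ⟨Prod.swap, continuous_swap⟩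

lemma continuous_sw : Continuous sw := ContinuousMap.continuous_precomp _

/-- f is asymptotically given by Φ -/
def Rel (f : ℝ → ℂ) (Φ : C(T × T, ℂ)) : Prop := Appr b1 f Φ ∧ Appr b2 f (sw Φ)

lemma appr_moving {c : ℕ → ℂ} (hc : ∀ k, ‖c k‖ = 1) {κ : ℕ → ℕ} (hκ : Tendsto κ atTop atTop)
    (e0 : ∀ m, c (κ m) = -1) (e1 : ∀ m, c (κ m + 1) = 1) :
    Appr (fun m => aa (κ m)) (fun t => FF c (E t)) X1 := by
  have lim := (tendsto_gam.comp hκ).const_mul (2 * π)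
  rw [mul_zero] at lim
  refine squeeze_zero (fun m => N_nonneg (aa_nonneg _) (aa_lt _) _) (fun m => ?_) lim
  refine le_of_eq_of_le ?_ (N_FF hc (κ m))
  congr 1
  funext t
  have := fourier_coe_nat 1 (th (aa (κ m)) t)
  rw [pow_one, E_th (aa_nonneg _) (aa_lt _)] at this
  simp only [Pi.sub_apply, sl, X1, ContinuousMap.comp_apply, ContinuousMap.fst_apply, e0, e1, st]
  rw [← this]
  push_cast
  ring

lemma appr_fixed {c : ℕ → ℂ} (hc : ∀ k, ‖c k‖ = 1) {κ : ℕ → ℕ} (hκ : Tendsto κ atTop atTop)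
    (e0 : ∀ m, c (κ m) = fourier 1 (mu m)) (e1 : ∀ m, c (κ m + 1) = fourier 1 (mu m)) :
    Appr (fun m => aa (κ m)) (fun t => FF c (E t)) X2 := by
  have lim := (tendsto_gam.comp hκ).const_mul (2 * π)
  rw [mul_zero] at lim
  refine squeeze_zero (fun m => N_nonneg (aa_nonneg _) (aa_lt _) _) (fun m => ?_) lim
  refine le_of_eq_of_le ?_ (N_FF hc (κ m))
  congr 1
  funext t
  simp only [Pi.sub_apply, sl, X2, ContinuousMap.comp_apply, ContinuousMap.snd_apply, e0, e1]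
  ring

lemma rel_xs : Rel (fun t => FF xs (E t)) X1 := by
  constructor
  · refine appr_moving (fun _ => norm_XX _) t6 (fun m => ?_) (fun m => ?_)
    · rw [← XX0 m]; exact congrArg XX (by omega)
    · rw [← XX1 m]; exact congrArg XX (by omega)
  · refine appr_fixed (fun _ => norm_XX _) t63 (fun m => ?_) (fun m => ?_)
    · rw [← XX2 m]; exact congrArg XX (by omega)
    · rw [← XX2 m]; exact congrArg XX (by omega)

lemma rel_ys : Rel (fun t => FF ys (E t)) X2 := by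
  constructor
  · refine appr_fixed (fun _ => norm_XX _) t6 (fun m => ?_) (fun m => ?_)
    · rw [← XX2 m]; exact congrArg XX (by omega)
    · rw [← XX2 m]; exact congrArg XX (by omega)
  · refine appr_moving (fun _ => norm_XX _) t63 (fun m => ?_) (fun m => ?_)
    · rw [← XX0 (m + 1)]; exact congrArg XX (by omega)
    · rw [← XX1 (m + 1)]; exact congrArg XX (by omega)

/-- the C*-algebra -/
def SS : Set (ℝ → ℂ) := {f | Function.Periodic f (2 * π) ∧ Good f ∧ ∃ Φ, Rel f Φ}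

open Classical in
/-- the character in the corona -/
def phi (f : ℝ → ℂ) : ℂ := if h : ∃ Φ, Rel f Φ then mean h.choose else 0

lemma phi_eq {f : ℝ → ℂ} {Φ : C(T × T, ℂ)} (hf : Good f) (H : Rel f Φ) : phi f = mean Φ := by
  have h : ∃ Φ, Rel f Φ := ⟨Φ, H⟩
  rw [phi, dif_pos h, Appr.unique b1_0 b1_1 hf hf h.choose_spec.1 H.1 (EventuallyEq.refl _ _)]

lemma Rel.add {f g : ℝ → ℂ} {Φ Ψ : C(T × T, ℂ)} (hf : Good f) (hg : Good g) (Hf : Rel f Φ)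
    (Hg : Rel g Ψ) : Rel (f + g) (Φ + Ψ) :=
  ⟨Appr.add b1_0 b1_1 hf hg Hf.1 Hg.1, by
    have e : sw (Φ + Ψ) = sw Φ + sw Ψ := by ext p; simp [sw]
    rw [e]; exact Appr.add b2_0 b2_1 hf hg Hf.2 Hg.2⟩

lemma Rel.mul {f g : ℝ → ℂ} {Φ Ψ : C(T × T, ℂ)} (hf : Good f) (hg : Good g) (Hf : Rel f Φ)
    (Hg : Rel g Ψ) : Rel (f * g) (Φ * Ψ) :=
  ⟨Appr.mul b1_0 b1_1 hf hg Hf.1 Hg.1, by
    have e : sw (Φ * Ψ) = sw Φ * sw Ψ := by ext p; simp [sw]
    rw [e]; exact Appr.mul b2_0 b2_1 hf hg Hf.2 Hg.2⟩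

lemma Rel.smul (c : ℂ) {f : ℝ → ℂ} {Φ : C(T × T, ℂ)} (hf : Good f) (Hf : Rel f Φ) :
    Rel (c • f) (c • Φ) :=
  ⟨Appr.smul b1_0 b1_1 c hf Hf.1, by
    have e : sw (c • Φ) = c • sw Φ := by ext p; simp [sw]
    rw [e]; exact Appr.smul b2_0 b2_1 c hf Hf.2⟩

lemma Rel.star {f : ℝ → ℂ} {Φ : C(T × T, ℂ)} (hf : Good f) (Hf : Rel f Φ) :
    Rel (fun t => star (f t)) (star Φ) :=
  ⟨Appr.star b1_0 b1_1 hf Hf.1, by
    have e : sw (Star.star Φ) = Star.star (sw Φ) := by ext p; simp [sw]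
    rw [e]; exact Appr.star b2_0 b2_1 hf Hf.2⟩

lemma rel_const {f : ℝ → ℂ} (hc : Continuous f) (hp : Function.Periodic f (2 * π)) :
    Rel f (ContinuousMap.const _ (f 0)) :=
  ⟨appr_const b1_0 b1_1 (tendsto_aa.comp t6) hc hp, appr_const b2_0 b2_1 (tendsto_aa.comp t63) hc hp⟩

lemma good_of_periodic {f : ℝ → ℂ} (hc : Continuous f) (hp : Function.Periodic f (2 * π)) :
    Good f := by
  obtain ⟨C, hC⟩ := (hp.isBounded_of_continuous Real.two_pi_pos.ne' hc).exists_norm_le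
  exact Good.of_cont hc fun t => hC _ ⟨t, rfl⟩

lemma SS_closed (F : ℕ → ℝ → ℂ) (f : ℝ → ℂ) (hF : ∀ n, F n ∈ SS)
    (hp : Function.Periodic f (2 * π)) (hm : AEStronglyMeasurable f volume)
    (hl : Tendsto (fun n => eLpNorm (F n - f) (⊤ : ENNReal) volume) atTop (𝓝 0)) : f ∈ SS := by
  have l1 : ∀ ε > 0, ∀ᶠ n in atTop, ∀ᵐ t, ‖F n t - f t‖ ≤ ε := by
    intro ε hε
    filter_upwards [hl.eventually (gt_mem_nhds (ENNReal.ofReal_pos.2 hε))] with n hn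
    filter_upwards [ae_le_eLpNormEssSup (f := F n - f) (μ := volume)] with t ht
    rw [eLpNorm_exponent_top] at hn
    have := ht.trans hn.le
    rwa [← ofReal_norm, ENNReal.ofReal_le_ofReal_iff hε.le] at this
  have hf : Good f := by
    obtain ⟨n, hn⟩ := (l1 1 one_pos).exists
    obtain ⟨C, hC, hb⟩ := (hF n).2.1.2
    refine ⟨hm, C + 1, by positivity, ?_⟩
    filter_upwards [hn, hb] with t h1 h2
    have := norm_sub_norm_le (f t) (F n t)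
    rw [norm_sub_rev] at this
    linarith
  choose Φs hΦs using fun n => (hF n).2.2
  have hcau : CauchySeq Φs := by
    rw [Metric.cauchySeq_iff]
    intro ε hε
    obtain ⟨M, hM⟩ := eventually_atTop.1 (l1 (ε / 4) (by positivity))
    refine ⟨M, fun m hm n hn => ?_⟩
    have := Appr.bound b1_0 b1_1 ((hF m).2.1.sub (hF n).2.1)
      (Appr.sub b1_0 b1_1 (hF m).2.1 (hF n).2.1 (hΦs m).1 (hΦs n).1) (M := ε / 2) (by positivity) (by
        filter_upwards [hM m hm, hM n hn] with t h1 h2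
        have e : (F m - F n) t = (F m t - f t) - (F n t - f t) := by simp
        rw [e]
        linarith [norm_sub_le (F m t - f t) (F n t - f t)])
    rw [dist_eq_norm]
    linarith
  obtain ⟨Φ, hΦ⟩ := cauchySeq_tendsto_of_complete hcau
  refine ⟨hp, hf, Φ, ?_, ?_⟩
  · exact Appr.limit b1_0 b1_1 (fun n => (hF n).2.1) hf (fun n => (hΦs n).1) l1 hΦ
  · exact Appr.limit b2_0 b2_1 (fun n => (hF n).2.1) hf (fun n => (hΦs n).2) l1
      ((continuous_sw.tendsto Φ).comp hΦ)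

lemma exp_nat (n : ℕ) (t : ℝ) : cexp ((n : ℂ) * (t : ℂ) * I) = E t ^ n := by
  rw [E, ← Complex.exp_nat_mul, mul_assoc]

lemma phi_mul {f g : ℝ → ℂ} (hf : f ∈ SS) (hg : g ∈ SS)
    (Af : ∀ n : ℕ, 0 < n → ∫ t in (0:ℝ)..(2 * π), f t * E t ^ n = 0)
    (Ag : ∀ n : ℕ, 0 < n → ∫ t in (0:ℝ)..(2 * π), g t * E t ^ n = 0) :
    phi (f * g) = phi f * phi g := by
  obtain ⟨-, gf, Φ, hΦ⟩ := hf
  obtain ⟨-, gg, Ψ, hΨ⟩ := hg
  rw [phi_eq gf hΦ, phi_eq gg hΨ, phi_eq (gf.mul gg) (hΦ.mul gf gg hΨ)]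
  exact mean_mul (Appr.an b1_0 b1_1 gf hΦ.1 Af) (Appr.an b2_0 b2_1 gf hΦ.2 Af)
    (Appr.an b1_0 b1_1 gg hΨ.1 Ag) (Appr.an b2_0 b2_1 gg hΨ.2 Ag)

lemma FF_periodic (c : ℕ → ℂ) : Function.Periodic (fun t => FF c (E t)) (2 * π) :=
  fun t => by simp only [E_periodic t]

theorem main :
    ¬ (∀ S : Set (ℝ → ℂ),
    (∀ f ∈ S, Function.Periodic f (2 * Real.pi) ∧ AEStronglyMeasurable f volume ∧
        eLpNorm f (⊤ : ENNReal) volume < ⊤) →
    (∀ f : ℝ → ℂ, Continuous f → Function.Periodic f (2 * Real.pi) → f ∈ S) →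
    (∀ f ∈ S, ∀ g ∈ S, f + g ∈ S) →
    (∀ f ∈ S, ∀ g ∈ S, f * g ∈ S) →
    (∀ c : ℂ, ∀ f ∈ S, c • f ∈ S) →
    (∀ f ∈ S, (fun t => star (f t)) ∈ S) →
    (∀ (F : ℕ → ℝ → ℂ) (f : ℝ → ℂ), (∀ n, F n ∈ S) → Function.Periodic f (2 * Real.pi) →
        AEStronglyMeasurable f volume →
        Tendsto (fun n => eLpNorm (F n - f) (⊤ : ENNReal) volume) atTop (𝓝 0) → f ∈ S) →
    ∀ A : Set (ℝ → ℂ),
      A = {f | f ∈ S ∧ ∀ n : ℕ, 0 < n →
        ∫ t in (0:ℝ)..(2 * Real.pi), f t * Complex.exp ((n : ℂ) * (t : ℂ) * Complex.I) = 0} →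
    ∀ φ : (ℝ → ℂ) → ℂ,
      φ (fun _ => 1) = 1 →
      (∀ f ∈ A, ∀ g ∈ A, φ (f + g) = φ f + φ g) →
      (∀ c : ℂ, ∀ f ∈ A, φ (c • f) = c * φ f) →
      (∀ f ∈ A, ∀ g ∈ A, φ (f * g) = φ f * φ g) →
      (∀ f ∈ A, ∀ g ∈ A, f =ᵐ[volume] g → φ f = φ g) →
      ∀ (m : ℕ) (F : Fin m → ℝ → ℂ), (∀ i, F i ∈ A) →
        ∀ ε : ℝ, 0 < ε → ∃ z : ℂ, ‖z‖ < 1 ∧ ∀ i,
          ‖(∫ t in (0:ℝ)..(2 * Real.pi),
              F i t * (((1 - ‖z‖ ^ 2) / ‖Complex.exp ((t : ℂ) * Complex.I) - z‖ ^ 2 : ℝ) : ℂ))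
              / (2 * (Real.pi : ℂ)) - φ (F i)‖ < ε) := by
  intro H
  have hx : ∀ k, ‖xs k‖ = 1 := fun _ => norm_XX _
  have hy : ∀ k, ‖ys k‖ = 1 := fun _ => norm_XX _
  have key := H SS (fun f hf => ⟨hf.1, good_iff.1 hf.2.1⟩)
    (fun f hc hp => ⟨hp, good_of_periodic hc hp, _, rel_const hc hp⟩)
    (fun f ⟨pf, gf, Φ, hΦ⟩ g ⟨pg, gg, Ψ, hΨ⟩ => ⟨pf.add pg, gf.add gg, _, hΦ.add gf gg hΨ⟩)
    (fun f ⟨pf, gf, Φ, hΦ⟩ g ⟨pg, gg, Ψ, hΨ⟩ => ⟨pf.mul pg, gf.mul gg, _, hΦ.mul gf gg hΨ⟩)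
    (fun c f ⟨pf, gf, Φ, hΦ⟩ => ⟨pf.smul c, gf.smul c, _, hΦ.smul c gf⟩)
    (fun f ⟨pf, gf, Φ, hΦ⟩ => ⟨fun t => by simp only [pf t], gf.star, _, hΦ.star gf⟩)
    SS_closed _ rfl phi
    (by
      rw [phi_eq (good_of_periodic continuous_const fun _ => rfl)
        (rel_const continuous_const fun _ => rfl), mean_const])
    (by
      rintro f ⟨⟨-, gf, Φ, hΦ⟩, -⟩ g ⟨⟨-, gg, Ψ, hΨ⟩, -⟩
      rw [phi_eq gf hΦ, phi_eq gg hΨ, phi_eq (gf.add gg) (hΦ.add gf gg hΨ), mean_add])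
    (by
      rintro c f ⟨⟨-, gf, Φ, hΦ⟩, -⟩
      rw [phi_eq gf hΦ, phi_eq (gf.smul c) (hΦ.smul c gf), mean_smul])
    (by
      rintro f ⟨hf, Af⟩ g ⟨hg, Ag⟩
      simp_rw [exp_nat] at Af Ag
      exact phi_mul hf hg Af Ag)
    (by
      rintro f ⟨⟨-, gf, Φ, hΦ⟩, -⟩ g ⟨⟨-, gg, Ψ, hΨ⟩, -⟩ h
      rw [phi_eq gf hΦ, phi_eq gg hΨ, Appr.unique b1_0 b1_1 gf gg hΦ.1 hΨ.1 h])
    2 ![fun t => FF xs (E t), fun t => FF ys (E t)]
    (by
      intro i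
      fin_cases i
      · refine ⟨⟨FF_periodic _, good_FF hx, _, rel_xs⟩, fun n hn => ?_⟩
        simp_rw [exp_nat]
        exact FF_an hx n hn
      · refine ⟨⟨FF_periodic _, good_FF hy, _, rel_ys⟩, fun n hn => ?_⟩
        simp_rw [exp_nat]
        exact FF_an hy n hn)
    (1 / 2) (by norm_num)
  obtain ⟨z, hz, hk⟩ := key
  have hpi : (2 * (π : ℂ)) ≠ 0 := by
    simp
  have k0 : ‖(∫ t in (0:ℝ)..(2 * π), FF xs (E t) * (Pk z t : ℂ)) / (2 * (π : ℂ))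
      - phi (fun t => FF xs (E t))‖ < 1 / 2 := hk 0
  have k1 : ‖(∫ t in (0:ℝ)..(2 * π), FF ys (E t) * (Pk z t : ℂ)) / (2 * (π : ℂ))
      - phi (fun t => FF ys (E t))‖ < 1 / 2 := hk 1
  rw [FF_poisson hx hz, phi_eq (good_FF hx) rel_xs, mean_X1, sub_zero,
    mul_div_cancel_left₀ _ hpi] at k0
  rw [FF_poisson hy hz, phi_eq (good_FF hy) rel_ys, mean_X2, sub_zero,
    mul_div_cancel_left₀ _ hpi] at k1
  rcases FF_lower hx hy xs_ys hz with h | h <;> linarith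

end

end Pool.Agent.P.MP_563d58_an
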