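import Pool.Agent.P.MP_563d58_an.Basic

set_option autoImplicit false
set_option linter.unusedSectionVars false
open MeasureTheory Filter Topology Complex Metric AddCircle
open scoped Real ComplexConjugate

namespace Pool.Agent.P.MP_563d58_an

noncomputable section

instance twoPiPos : Fact (0 < 2 * π) := ⟨Real.two_pi_pos⟩

/-- the circle -/
abbrev T := AddCircle (2 * π)

lemma fourier_coe (n : ℤ) (t : ℝ) : fourier n (t : T) = cexp ((n : ℂ) * (t : ℂ) * I) := by
  rw [fourier_coe_apply]
  congr 1
  have hpi : (π : ℂ) ≠ 0 := by exact_mod_cast Real.pi_ne_zero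
  push_cast
  field_simp

lemma fourier_coe_nat (n : ℕ) (t : ℝ) : fourier (n : ℤ) (t : T) = E t ^ n := by
  rw [fourier_coe, E, ← Complex.exp_nat_mul]
  congr 1
  push_cast
  ring

lemma intT {F : Type*} [NormedAddCommGroup F] [NormedSpace ℝ F] (g : T → F) :
    ∫ t in (0:ℝ)..(2 * π), g (t : T) = (2 * π) • ∫ x : T, g x ∂haarAddCircle := by
  have h := AddCircle.intervalIntegral_preimage (2 * π) 0 g
  rw [zero_add] at h
  rw [h, integral_haarAddCircle, smul_inv_smul₀ Real.two_pi_pos.ne']

lemma orthT {f h : T → ℂ} (hf : MemLp f 2 haarAddCircle) (hh : MemLp h 2 haarAddCircle)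
    (H : ∀ n : ℤ, ∫ x, f x * fourier n x ∂haarAddCircle = 0 ∨
      ∫ x, h x * fourier (-n) x ∂haarAddCircle = 0) :
    ∫ x, f x * h x ∂haarAddCircle = 0 := by
  have hh' : MemLp (fun x => conj (h x)) 2 haarAddCircle := hh.star
  have key := fourierBasis.hasSum_inner_mul_inner (hh'.toLp _) (hf.toLp _)
  have e1 : inner ℂ (hh'.toLp _) (hf.toLp _) = ∫ x, f x * h x ∂haarAddCircle := by
    rw [MeasureTheory.L2.inner_def]
    apply integral_congr_ae
    filter_upwards [hh'.coeFn_toLp, hf.coeFn_toLp] with x h1 h2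
    rw [h1, h2]
    simp
  have e2 : ∀ n : ℤ, inner ℂ (hh'.toLp _) (fourierBasis n) * inner ℂ (fourierBasis n) (hf.toLp _)
      = 0 := by
    intro n
    rcases H (-n) with H1 | H1
    · apply mul_eq_zero_of_right
      rw [← H1, MeasureTheory.L2.inner_def, coe_fourierBasis]
      apply integral_congr_ae
      filter_upwards [coeFn_fourierLp 2 n, hf.coeFn_toLp] with x h1 h2
      rw [h1, h2, fourier_neg]
      simp
    · apply mul_eq_zero_of_left
      rw [neg_neg] at H1
      rw [← H1, MeasureTheory.L2.inner_def, coe_fourierBasis]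
      apply integral_congr_ae
      filter_upwards [coeFn_fourierLp 2 n, hh'.coeFn_toLp] with x h1 h2
      rw [h1, h2]
      simp [mul_comm]
  simp_rw [e2, e1] at key
  exact (hasSum_zero.unique key).symm

lemma int_lift (g : ℝ → ℂ) (k : T → ℂ) :
    ∫ t in (0:ℝ)..(2 * π), g t * k t
      = (2 * π) • ∫ x : T, liftIoc (2 * π) 0 g x * k x ∂haarAddCircle := by
  rw [← intT (fun x => liftIoc (2 * π) 0 g x * k x)]
  apply intervalIntegral.integral_congr_ae
  refine ae_of_all _ fun t ht => ?_
  rw [Set.uIoc_of_le Real.two_pi_pos.le] at ht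
  rw [liftIoc_coe_apply (by simpa using ht)]

/-- orthogonality on the interval: f has only nonnegative frequencies, h only positive ones -/
lemma orthR {f h : ℝ → ℂ} (hf : MemLp f 2 (volume.restrict (Set.Ioc 0 (2 * π))))
    (hh : MemLp h 2 (volume.restrict (Set.Ioc 0 (2 * π))))
    (Hf : ∀ n : ℕ, 0 < n → ∫ t in (0:ℝ)..(2 * π), f t * E t ^ n = 0)
    (Hh : ∀ n : ℕ, ∫ t in (0:ℝ)..(2 * π), h t * E t ^ n = 0) :
    ∫ t in (0:ℝ)..(2 * π), f t * h t = 0 := by
  have hf' : MemLp (liftIoc (2 * π) 0 f) 2 (haarAddCircle : Measure T) := by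
    apply MemLp.haarAddCircle
    apply MemLp.memLp_liftIoc
    simpa using hf
  have hh' : MemLp (liftIoc (2 * π) 0 h) 2 (haarAddCircle : Measure T) := by
    apply MemLp.haarAddCircle
    apply MemLp.memLp_liftIoc
    simpa using hh
  have hne : (2 * π : ℝ) ≠ 0 := Real.two_pi_pos.ne'
  have key := orthT hf' hh' (by
    intro n
    rcases lt_or_ge 0 n with hn | hn
    · left
      obtain ⟨m, rfl⟩ := Int.eq_ofNat_of_zero_le hn.le
      have h1 := int_lift f (fourier (m : ℤ))
      simp_rw [fourier_coe_nat] at h1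
      rw [Hf m (by exact_mod_cast hn)] at h1
      exact (smul_eq_zero.1 h1.symm).resolve_left hne
    · right
      obtain ⟨m, hm⟩ := Int.eq_ofNat_of_zero_le (neg_nonneg.2 hn)
      rw [hm]
      have h1 := int_lift h (fourier (m : ℤ))
      simp_rw [fourier_coe_nat] at h1
      rw [Hh m] at h1
      exact (smul_eq_zero.1 h1.symm).resolve_left hne)
  have h2 := int_lift f (liftIoc (2 * π) 0 h)
  rw [key, smul_zero] at h2
  rw [← h2]
  apply intervalIntegral.integral_congr_ae
  refine ae_of_all _ fun t ht => ?_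
  rw [Set.uIoc_of_le Real.two_pi_pos.le] at ht
  rw [liftIoc_coe_apply (by simpa using ht)]

/-- no negative frequencies -/
def An (p : T → ℂ) : Prop := ∀ n : ℕ, 0 < n → ∫ x, p x * fourier (n : ℤ) x ∂haarAddCircle = 0

lemma cont_memLp {p : T → ℂ} (hp : Continuous p) : MemLp p 2 (haarAddCircle : Measure T) := by
  obtain ⟨C, hC⟩ := (isCompact_univ.image hp).isBounded.exists_norm_le
  exact MemLp.of_bound hp.aestronglyMeasurable C
    (ae_of_all _ fun x => hC _ ⟨x, trivial, rfl⟩)

lemma cont_integrable {p : T → ℂ} (hp : Continuous p) :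
    Integrable p (haarAddCircle : Measure T) :=
  (cont_memLp hp).integrable (by norm_num)

lemma integral_fourier {n : ℤ} (hn : n ≠ 0) :
    ∫ x : T, fourier n x ∂haarAddCircle = 0 := by
  have := congrFun (fourierCoeff_fourier (T := 2 * π) n) 0
  simpa [fourierCoeff, hn.symm, fourier_zero, -fourier_apply] using this

lemma An.mul_int {p q : T → ℂ} (hp : Continuous p) (hq : Continuous q) (Hp : An p) (Hq : An q) :
    ∫ x, p x * q x ∂haarAddCircle
      = (∫ x, p x ∂haarAddCircle) * ∫ x, q x ∂haarAddCircle := by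
  set c := ∫ x, q x ∂haarAddCircle with hc
  have hq' : Continuous fun x => q x - c := hq.sub continuous_const
  have key := orthT (cont_memLp hp) (cont_memLp hq') (by
    intro n
    rcases lt_or_ge 0 n with hn | hn
    · left
      obtain ⟨m, rfl⟩ := Int.eq_ofNat_of_zero_le hn.le
      exact Hp m (by exact_mod_cast hn)
    · right
      obtain ⟨m, hm⟩ := Int.eq_ofNat_of_zero_le (neg_nonneg.2 hn)
      rw [hm]
      simp_rw [sub_mul]
      rw [integral_sub (cont_integrable (by fun_prop)) (cont_integrable (by fun_prop)),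
        integral_const_mul]
      rcases Nat.eq_zero_or_pos m with rfl | hm0
      · simp [hc]
      · rw [Hq m hm0, integral_fourier (by exact_mod_cast hm0.ne')]
        simp)
  simp_rw [mul_sub] at key
  rw [integral_sub (cont_integrable (by fun_prop)) (cont_integrable (by fun_prop)),
    integral_mul_const] at key
  exact sub_eq_zero.1 key

/-- the mean over the torus -/
def mean (Φ : C(T × T, ℂ)) : ℂ := ∫ y, ∫ x, Φ (x, y) ∂haarAddCircle ∂haarAddCircle

lemma cont_integrable2 {p : T × T → ℂ} (hp : Continuous p) :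
    Integrable p ((haarAddCircle : Measure T).prod (haarAddCircle : Measure T)) := by
  obtain ⟨C, hC⟩ := (isCompact_univ.image hp).isBounded.exists_norm_le
  exact Integrable.of_bound hp.aestronglyMeasurable C
    (ae_of_all _ fun x => hC _ ⟨x, trivial, rfl⟩)

lemma cont_param {F : Type*} [NormedAddCommGroup F] [NormedSpace ℝ F] {p : T × T → F}
    (hp : Continuous p) :
    Continuous fun y => ∫ x, p (x, y) ∂haarAddCircle := by
  have := continuous_parametric_integral_of_continuous (μ := (haarAddCircle : Measure T))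
    (f := fun (y x : T) => p (x, y)) (by fun_prop) (s := Set.univ) isCompact_univ
  simpa using this

lemma An_param {Φ : C(T × T, ℂ)} (H : ∀ x, An fun y => Φ (x, y)) :
    An fun y => ∫ x, Φ (x, y) ∂haarAddCircle := by
  intro n hn
  simp_rw [← integral_mul_const]
  rw [integral_integral_swap]
  · simp_rw [fun x => H x n hn]
    simp
  · apply cont_integrable2
    exact (Φ.continuous.comp continuous_swap).mul ((map_continuous _).comp continuous_fst)

lemma mean_mul {Φ Ψ : C(T × T, ℂ)} (H1 : ∀ y, An fun x => Φ (x, y)) (H2 : ∀ x, An fun y => Φ (x, y))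
    (K1 : ∀ y, An fun x => Ψ (x, y)) (K2 : ∀ x, An fun y => Ψ (x, y)) :
    mean (Φ * Ψ) = mean Φ * mean Ψ := by
  unfold mean
  rw [← An.mul_int (cont_param Φ.continuous) (cont_param Ψ.continuous) (An_param H2) (An_param K2)]
  congr 1
  funext y
  rw [← An.mul_int (by fun_prop) (by fun_prop) (H1 y) (K1 y)]
  rfl

lemma mean_add (Φ Ψ : C(T × T, ℂ)) : mean (Φ + Ψ) = mean Φ + mean Ψ := by
  unfold mean
  rw [← integral_add (cont_integrable (cont_param Φ.continuous))
    (cont_integrable (cont_param Ψ.continuous))]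
  congr 1
  funext y
  rw [← integral_add (cont_integrable (by fun_prop)) (cont_integrable (by fun_prop))]
  rfl

lemma mean_smul (c : ℂ) (Φ : C(T × T, ℂ)) : mean (c • Φ) = c * mean Φ := by
  unfold mean
  simp [integral_const_mul]

lemma mean_const (c : ℂ) : mean (ContinuousMap.const _ c) = c := by
  unfold mean
  simp

/-- first coordinate -/
def X1 : C(T × T, ℂ) := (fourier 1).comp ContinuousMap.fst

/-- second coordinate -/
def X2 : C(T × T, ℂ) := (fourier 1).comp ContinuousMap.snd

lemma mean_X1 : mean X1 = 0 := by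
  unfold mean X1
  simp [integral_fourier one_ne_zero, -fourier_apply]

lemma mean_X2 : mean X2 = 0 := by
  unfold mean X2
  simp [integral_fourier one_ne_zero, -fourier_apply]

/-- a sequence visiting a dense set infinitely often -/
def mu (m : ℕ) : T := TopologicalSpace.denseSeq T (Nat.unpair m).1

lemma eq_zero_of_tendsto_mu {F : Type*} [NormedAddCommGroup F] {G : T → F} (hG : Continuous G)
    (h : Tendsto (fun m => G (mu m)) atTop (𝓝 0)) (y : T) : G y = 0 := by
  have h1 : ∀ j, G (TopologicalSpace.denseSeq T j) = 0 := by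
    intro j
    have h2 : Tendsto (fun k => Nat.pair j k) atTop atTop :=
      tendsto_atTop_mono (fun k => Nat.right_le_pair j k) tendsto_id
    have h3 := h.comp h2
    simp only [Function.comp_def, mu, Nat.unpair_pair] at h3
    exact tendsto_nhds_unique tendsto_const_nhds h3
  have h4 : G = fun _ => 0 :=
    (TopologicalSpace.denseRange_denseSeq T).equalizer hG continuous_const (funext h1)
  rw [h4]

end

end Pool.Agent.P.MP_563d58_an
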